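import Pool.Agent.X269.HG.SetR4

/-!
Smooth varieties stable under commuting homologies.
-/

set_option autoImplicit false

namespace Pool.Agent.X269.HG

open MvPolynomial Pool.Agent.W467.Sym
open Pool.Agent.X269.CT (pderiv_high weight_of_lin lin_eq_coeff mem_of_cone eval_zero_of_weight)

/-- generation -/
theorem span_homology {K : Type} [Field K] [CharZero K] {V : Type} [Fintype V] [DecidableEq V]
    (A : V → Prop) [DecidablePred A] {m : ℕ} (hm : 0 < m) {η : K} (hη : IsPrimitiveRoot η m)
    (I : Ideal (MvPolynomial V K)) [hI : I.IsPrime]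
    (hst : ∀ t : V → K, (∀ i, A i → t i ^ m = 1) → (∀ i, ¬ A i → t i = 1) →
      ∀ F ∈ I, aeval (fun i => C (t i) * X i : V → MvPolynomial V K) F ∈ I)
    (p : V → Prop) [DecidablePred p] (hp : ∀ i, p i ↔ A i ∧ (X i : MvPolynomial V K) ∈ I) :
    I = Ideal.span (Set.range (fun i : {i // p i} => (X i.1 : MvPolynomial V K)) ∪
      {F | F ∈ I ∧ ∃ P : MvPolynomial {i // ¬ p i} K,
        aeval (fun i : {i // ¬ p i} => (X i.1 : MvPolynomial V K) ^ (if A i.1 then m else 1))
          P = F}) := by
  classical
  set a := Fintype.card {k : {i // ¬ p i} // A k.1} with ha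
  set b := Fintype.card {k : {i // ¬ p i} // ¬ A k.1} with hb
  set ε : Fin a ⊕ Fin b ≃ {i // ¬ p i} :=
    (Equiv.sumCongr (Fintype.equivFin {k : {i // ¬ p i} // A k.1})
      (Fintype.equivFin {k : {i // ¬ p i} // ¬ A k.1})).symm.trans
      (Equiv.sumCompl (fun k : {i // ¬ p i} => A k.1)) with hε
  have hεl : ∀ j, A (ε (Sum.inl j)).1 := by
    intro j
    rw [hε]
    simp only [Equiv.trans_apply, Equiv.sumCongr_symm, Equiv.sumCongr_apply, Sum.map_inl,
      Equiv.sumCompl_apply_inl]
    exact ((Fintype.equivFin {k : {i // ¬ p i} // A k.1}).symm j).2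
  have hεr : ∀ j, ¬ A (ε (Sum.inr j)).1 := by
    intro j
    rw [hε]
    simp only [Equiv.trans_apply, Equiv.sumCongr_symm, Equiv.sumCongr_apply, Sum.map_inr,
      Equiv.sumCompl_apply_inr]
    exact ((Fintype.equivFin {k : {i // ¬ p i} // ¬ A k.1}).symm j).2
  set ι : Fin a ⊕ Fin b → V := fun k => (ε k).1 with hι
  set R : MvPolynomial (Fin a ⊕ Fin b) K →ₐ[K] MvPolynomial V K := rename ι with hR
  set I' := I.comap R with hI'
  have hI'p : I'.IsPrime := Ideal.comap_isPrime _ _
  have hst' : ∀ t : Fin a → K, (∀ i, t i ^ m = 1) → ∀ f ∈ I', scal t f ∈ I' := by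
    intro t ht f hf
    rw [hI', Ideal.mem_comap] at hf ⊢
    set t' : V → K := fun i => if h : ¬ p i then Sum.elim t (fun _ => 1) (ε.symm ⟨i, h⟩) else 1
      with ht'
    have ht'ι : ∀ k, t' (ι k) = Sum.elim t (fun _ => 1) k := by
      intro k
      simp only [ht', hι]
      rw [dif_pos (ε k).2, Subtype.coe_eta, Equiv.symm_apply_apply]
    have h1 := hst t' (by
      intro i hi
      by_cases h : ¬ p i
      · simp only [ht']
        rw [dif_pos h]
        rcases ε.symm ⟨i, h⟩ with k | k
        · exact ht k
        · simp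
      · simp only [ht']
        rw [dif_neg h, one_pow]) (by
      intro i hi
      by_cases h : ¬ p i
      · obtain ⟨k, hk⟩ := ε.surjective ⟨i, h⟩
        have hik : i = ι k := by rw [hι]; simp only; rw [hk]
        rw [hik, ht'ι]
        rcases k with k | k
        · exfalso
          have := hεl k
          rw [hk] at this
          exact hi this
        · rfl
      · simp only [ht']
        rw [dif_neg h]) _ hf
    have h2 : aeval (fun i => C (t' i) * X i : V → MvPolynomial V K) (R f) = R (scal t f) := by
      have : (aeval (fun i => C (t' i) * X i : V → MvPolynomial V K)).comp R =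
          R.comp (scal t) := by
        apply MvPolynomial.algHom_ext
        intro k
        rw [AlgHom.comp_apply, AlgHom.comp_apply, hR, rename_X, aeval_X, ht'ι]
        rcases k with k | k
        · rw [scal_inl, map_mul, rename_C, rename_X]
          rfl
        · rw [scal_inr, rename_X]
          simp
      exact congrArg (fun φ => φ f) this
    rw [← h2]
    exact h1
  have hX : 1 < m → ∀ i, (X (Sum.inl i) : MvPolynomial (Fin a ⊕ Fin b) K) ∉ I' := by
    intro _ i hi
    rw [hI', Ideal.mem_comap, hR, rename_X] at hi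
    exact (ε (Sum.inl i)).2 ((hp _).2 ⟨hεl i, hi⟩)
  have hroot := span_root hm hη I' hst' hX
  set gen : {i // ¬ p i} → MvPolynomial V K :=
    fun i => (X i.1 : MvPolynomial V K) ^ (if A i.1 then m else 1) with hgen
  set Z : Ideal (MvPolynomial V K) :=
    Ideal.span (Set.range (fun i : {i // p i} => (X i.1 : MvPolynomial V K))) with hZ
  set T : Ideal (MvPolynomial V K) :=
    Ideal.span (Set.range (fun i : {i // p i} => (X i.1 : MvPolynomial V K)) ∪
      {F | F ∈ I ∧ ∃ P : MvPolynomial {i // ¬ p i} K, aeval gen P = F}) with hT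
  have hZT : Z ≤ T := Ideal.span_mono Set.subset_union_left
  have hZI : Z ≤ I := by
    rw [hZ, Ideal.span_le]
    rintro _ ⟨i, rfl⟩
    exact ((hp _).1 i.2).2
  apply le_antisymm
  · intro F hF
    set ρ : MvPolynomial V K →ₐ[K] MvPolynomial (Fin a ⊕ Fin b) K :=
      aeval (fun i => if h : ¬ p i then X (ε.symm ⟨i, h⟩) else 0) with hρ
    have key : F - R (ρ F) ∈ Z := by
      rw [← Ideal.Quotient.eq]
      have : (Ideal.Quotient.mkₐ K Z) = (Ideal.Quotient.mkₐ K Z).comp (R.comp ρ) := by
        apply MvPolynomial.algHom_ext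
        intro i
        rw [AlgHom.comp_apply, AlgHom.comp_apply, hρ, aeval_X]
        by_cases h : p i
        · rw [dif_neg (not_not.2 h), map_zero, map_zero]
          exact Ideal.Quotient.eq_zero_iff_mem.2 (Ideal.subset_span ⟨⟨i, h⟩, rfl⟩)
        · rw [dif_pos h, hR, rename_X, hι]
          simp only [Equiv.apply_symm_apply]
      exact congrArg (fun φ => φ F) this
    have h2 : ρ F ∈ I' := by
      rw [hI', Ideal.mem_comap]
      have := I.sub_mem hF (hZI key)
      rwa [sub_sub_cancel] at this
    have h3 : R (ρ F) ∈ T := by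
      rw [hroot] at h2
      have h4 : R (ρ F) ∈ ((I'.comap (pw m : MvPolynomial (Fin a ⊕ Fin b) K →ₐ[K] _)).map
          (pw m : MvPolynomial (Fin a ⊕ Fin b) K →ₐ[K] _)).map R := Ideal.mem_map_of_mem _ h2
      refine (Ideal.map_le_iff_le_comap.2 (Ideal.map_le_iff_le_comap.2 ?_)) h4
      intro g hg
      rw [Ideal.mem_comap, hI', Ideal.mem_comap] at hg
      rw [Ideal.mem_comap, Ideal.mem_comap]
      refine Ideal.subset_span (Or.inr ⟨hg, rename ε g, ?_⟩)
      have h5 : (aeval gen).comp (rename ε) = R.comp (pw m) := by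
        apply MvPolynomial.algHom_ext
        intro k
        rw [AlgHom.comp_apply, AlgHom.comp_apply, rename_X, aeval_X]
        rcases k with k | k
        · rw [pw_inl, map_pow, hR, rename_X, hgen]
          simp only
          rw [if_pos (hεl k)]
        · rw [pw_inr, hR, rename_X, hgen]
          simp only
          rw [if_neg (hεr k), pow_one]
      exact congrArg (fun φ => φ g) h5
    have h4 : F = (F - R (ρ F)) + R (ρ F) := by ring
    rw [h4]
    exact T.add_mem (hZT key) h3
  · rw [hT, Ideal.span_le]
    rintro F (⟨i, rfl⟩ | hF)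
    · exact ((hp _).1 i.2).2
    · exact hF.1

theorem zeros_of_span {K : Type} [Field K] {σ : Type} [Fintype σ] (r : ℕ)
    (I : Ideal (MvPolynomial σ K))
    (hr : ∀ x ∈ cone I, x ≠ 0 → Module.finrank K (conormal I x) = r)
    (F : Fin r → MvPolynomial σ K) (hI : I = Ideal.span (Set.range F)) :
    (∀ x, x ∈ cone I ↔ ∀ i, eval x (F i) = 0) ∧
      (∀ x ∈ cone I, x ≠ 0 → LinearIndependent K (fun i => grad (F i) x)) := by
  have hmem : ∀ i, F i ∈ I := fun i => by rw [hI]; exact Ideal.subset_span ⟨i, rfl⟩
  refine ⟨?_, ?_⟩
  · intro x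
    constructor
    · intro hx i; exact hx _ (hmem i)
    · intro hx G hG
      rw [hI, Ideal.mem_span_range_iff_exists_fun] at hG
      obtain ⟨c, rfl⟩ := hG
      rw [map_sum]
      exact Finset.sum_eq_zero (fun i _ => by rw [map_mul, hx i, mul_zero])
  · intro x hx hx0
    rw [linearIndependent_iff_card_le_finrank_span, Fintype.card_fin]
    refine le_trans (hr x hx hx0).ge ?_
    apply Submodule.finrank_mono
    rw [conormal, Submodule.span_le]
    rintro _ ⟨G, hG, rfl⟩
    rw [hI] at hG
    have h1 := (grad_mem_span (x := x) (by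
      rintro _ ⟨i, rfl⟩
      exact hx _ (hmem i)) hG).2
    rwa [← Set.range_comp] at h1

/-- The theorem for commuting homologies. -/
theorem main {K : Type} [Field K] [IsAlgClosed K] [CharZero K] {N r m s : ℕ} (hm : 2 ≤ m)
    (hsN : s ≤ N) (h2 : 2 * r ≤ s) {η : K} (hη : IsPrimitiveRoot η m)
    (I : Ideal (MvPolynomial (Fin N) K)) (hI : I.IsPrime)
    (hhom : ∀ F ∈ I, ∀ d, homogeneousComponent d F ∈ I)
    (hne : ∃ x ∈ cone I, x ≠ 0)
    (hsm : ∀ x ∈ cone I, x ≠ 0 → Module.finrank K (conormal I x) = r)
    (hst : ∀ t : Fin N → K, (∀ i, i.1 < s → t i ^ m = 1) → (∀ i, s ≤ i.1 → t i = 1) →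
      ∀ F ∈ I, aeval (fun i => C (t i) * X i : Fin N → MvPolynomial (Fin N) K) F ∈ I)
    (hcut : ∀ z : Fin N → K, z ≠ 0 → (∀ i, s ≤ i.1 → z i = 0) →
      (z ∉ cone I → ∃ F ∈ I, F.totalDegree < 2 * m ∧ eval z F ≠ 0) ∧
      (z ∈ cone I → conormal I z ≤
        Submodule.span K {ξ | ∃ F ∈ I, F.totalDegree < 2 * m ∧ ξ = grad F z})) :
    ∃ F : Fin r → MvPolynomial (Fin N) K,
      (∀ i, ∃ d, (d = 1 ∨ d = m ∨ d = m + 1) ∧ (F i).IsHomogeneous d) ∧
      (∀ x, x ∈ cone I ↔ ∀ i, eval x (F i) = 0) ∧
      (∀ x ∈ cone I, x ≠ 0 → LinearIndependent K (fun i => grad (F i) x)) ∧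
      I = Ideal.span (Set.range F) := by
  classical
  obtain ⟨x₀, hx₀, hx₀0⟩ := hne
  obtain ⟨i₀, hi₀⟩ : ∃ i, x₀ i ≠ 0 := by
    by_contra h
    push Not at h
    exact hx₀0 (funext h)
  have hXi : (X i₀ : MvPolynomial (Fin N) K) ∉ I := by
    intro h
    have := hx₀ _ h
    rw [eval_X] at this
    exact hi₀ this
  set p : Fin N → Prop := fun i => i.1 < s ∧ (X i : MvPolynomial (Fin N) K) ∈ I with hp
  set wgt : {i // ¬ p i} → ℕ := fun k => if k.1.1 < s then m else 1 with hwgt
  set gen : {i // ¬ p i} → MvPolynomial (Fin N) K := fun k => X k.1 ^ wgt k with hgen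
  set ge : {i // p i} → MvPolynomial (Fin N) K := fun k => X k.1 with hge
  have hspan := span_homology (fun i : Fin N => i.1 < s) (by omega : 0 < m) hη I
    (fun t h1 h2 => hst t h1 (fun i hi => h2 i (by omega))) p (fun i => Iff.rfl)
  have hgegrad : ∀ (k : {i // p i}) x, grad (ge k) x = Pi.single k.1 1 := by
    intro k x
    funext j
    simp only [hge, grad]
    by_cases hj : j = k.1
    · rw [hj, pderiv_X_self, map_one, Pi.single_eq_same]
    · rw [pderiv_X_of_ne (Ne.symm hj), map_zero, Pi.single_eq_of_ne hj]
  have hgengrad : ∀ (k : {i // ¬ p i}) x, grad (gen k) x =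
      ((wgt k : K) * x k.1 ^ (wgt k - 1)) • Pi.single k.1 1 := by
    intro k x
    funext j
    simp only [hgen, grad]
    rw [Derivation.leibniz_pow, Pi.smul_apply]
    by_cases hj : j = k.1
    · rw [hj, pderiv_X_self, Pi.single_eq_same]
      simp
    · rw [pderiv_X_of_ne (Ne.symm hj), Pi.single_eq_of_ne hj]
      simp
  have hcardE : Fintype.card {i // p i} ≤ r := by
    have h3 : LinearIndependent K (fun k : {i // p i} => (Pi.single k.1 1 : Fin N → K)) := by
      have := (Pi.basisFun K (Fin N)).linearIndependent.comp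
        (Subtype.val : {i // p i} → Fin N) Subtype.val_injective
      convert this using 1
      funext k
      simp
    have h4 := finrank_span_eq_card h3
    have h5 : Submodule.span K (Set.range fun k : {i // p i} => (Pi.single k.1 1 : Fin N → K)) ≤
        conormal I x₀ := by
      rw [Submodule.span_le]
      rintro _ ⟨k, rfl⟩
      exact Submodule.subset_span ⟨ge k, k.2.2, (hgegrad k x₀).symm⟩
    have h6 := Submodule.finrank_mono h5
    rwa [h4, hsm x₀ hx₀ hx₀0] at h6
  have hwpos : ∀ k, 0 < wgt k := by
    intro k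
    simp only [hwgt]
    split_ifs
    · omega
    · exact one_pos
  have S : SetR m (r - Fintype.card {i // p i}) ge gen wgt
      ((∏ k : {i // ¬ p i}, X k.1 ^ (wgt k - 1)) * X i₀) I :=
    { hm := hm
      w01 := by
        intro k
        simp only [hwgt]
        split_ifs
        · exact Or.inl rfl
        · exact Or.inr rfl
      gen_hom := fun k => isHomogeneous_X_pow _ _
      ge_mem := fun k => k.2.2
      ge_hom := fun k => ⟨1, Or.inl rfl, isHomogeneous_X _ _⟩
      disc_ind := by
        intro x hx
        rw [map_mul] at hx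
        have hx1 := (mul_ne_zero_iff.1 hx).1
        rw [map_prod, Finset.prod_ne_zero_iff] at hx1
        rw [Fintype.linearIndependent_iff]
        intro c hc
        rw [Fintype.sum_sum_type] at hc
        simp only [Sum.elim_inl, Sum.elim_inr, hgegrad, hgengrad] at hc
        rintro (k | k)
        · have h3 := congrFun hc k.1
          rw [Pi.add_apply, Finset.sum_apply, Finset.sum_apply, Finset.sum_eq_single k,
            Finset.sum_eq_zero] at h3
          · simpa using h3
          · intro l _
            rw [Pi.smul_apply, Pi.smul_apply, Pi.single_eq_of_ne, smul_zero, smul_zero]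
            intro h
            exact l.2 (h ▸ k.2)
          · intro l _ hl
            rw [Pi.smul_apply, Pi.single_eq_of_ne, smul_zero]
            intro h
            exact hl (Subtype.ext h.symm)
          · intro h; exact absurd (Finset.mem_univ _) h
        · have h3 := congrFun hc k.1
          rw [Pi.add_apply, Finset.sum_apply, Finset.sum_apply, Finset.sum_eq_zero,
            Finset.sum_eq_single k] at h3
          · have h4 := hx1 k (Finset.mem_univ _)
            rw [map_pow, eval_X] at h4
            have h5 : (wgt k : K) ≠ 0 := Nat.cast_ne_zero.2 (hwpos k).ne'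
            simp only [Pi.smul_apply, Pi.single_eq_same, smul_eq_mul, mul_one, zero_add,
              Pi.zero_apply] at h3
            exact (mul_eq_zero.1 h3).resolve_right (mul_ne_zero h5 h4)
          · intro l _ hl
            rw [Pi.smul_apply, Pi.smul_apply, Pi.single_eq_of_ne, smul_zero, smul_zero]
            intro h
            exact hl (Subtype.ext h.symm)
          · intro h; exact absurd (Finset.mem_univ _) h
          · intro l _
            rw [Pi.smul_apply, Pi.single_eq_of_ne, smul_zero]
            intro h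
            exact k.2 (h ▸ l.2)
      disc_zero := by
        rw [map_mul, eval_X, Pi.zero_apply, mul_zero]
      prime := hI
      hom := hhom
      smooth := by
        intro x hx hx0
        rw [hsm x hx hx0]
        omega
      disc_not := by
        intro h
        rcases hI.mem_or_mem h with h | h
        · rw [hI.prod_mem_iff] at h
          obtain ⟨k, -, hk⟩ := h
          by_cases hks : k.1.1 < s
          · exact k.2 ⟨hks, hI.mem_of_pow_mem _ hk⟩
          · have : wgt k - 1 = 0 := by
              simp only [hwgt]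
              rw [if_neg hks]
            rw [this, pow_zero] at hk
            exact hI.ne_top ((Ideal.eq_top_iff_one _).2 hk)
        · exact hXi h
      span := hspan
      pts := by
        intro w hw0 hw
        have h3 : ∀ k, ∃ l : K, l ^ wgt k = w k := fun k =>
          IsAlgClosed.exists_pow_nat_eq _ (hwpos k)
        choose l hl using h3
        set z : Fin N → K := fun i => if h : ¬ p i then l ⟨i, h⟩ else 0 with hz
        have hzk : ∀ k : {i // ¬ p i}, z k.1 = l k := by
          intro k
          simp only [hz]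
          rw [dif_pos k.2]
        have hz0 : z ≠ 0 := by
          intro h
          apply hw0
          funext k
          rw [← hl, ← hzk, h, Pi.zero_apply, zero_pow (hwpos k).ne']
          rfl
        have hzs : ∀ i, s ≤ i.1 → z i = 0 := by
          intro i hi
          have hpi : ¬ p i := fun h => absurd h.1 (by omega)
          have h4 := hzk ⟨i, hpi⟩
          have h5 : wgt ⟨i, hpi⟩ = 1 := by
            simp only [hwgt]
            rw [if_neg (by omega)]
          have h6 := hl ⟨i, hpi⟩
          rw [h5, pow_one] at h6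
          rw [show z i = l ⟨i, hpi⟩ from h4, h6]
          exact hw _ h5
        obtain ⟨hc1, hc2⟩ := hcut z hz0 hzs
        refine ⟨z, hz0, ?_, ?_, hc1, hc2⟩
        · intro k
          simp only [hge, eval_X, hz]
          rw [dif_neg (not_not.2 k.2)]
        · intro k
          simp only [hgen, map_pow, eval_X]
          rw [hzk, hl] }
  obtain ⟨F, hF, hIF⟩ := S.mainN (Nat.card {i // ¬ p i}) rfl (by
    -- counting
    have h3 : s ≤ Fintype.card {i // p i} + Nat.card {k // wgt k = m} := by
      rw [Nat.card_eq_fintype_card, ← Fintype.card_sum]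
      have h4 : Fintype.card (Fin s) ≤ Fintype.card ({i // p i} ⊕ {k // wgt k = m}) := by
        refine Fintype.card_le_of_injective
          (fun j : Fin s => if h : p (Fin.castLE hsN j) then Sum.inl ⟨_, h⟩ else
            Sum.inr ⟨⟨Fin.castLE hsN j, h⟩, by
              simp only [hwgt]
              rw [if_pos (by simp)]⟩) ?_
        intro i j hij
        simp only at hij
        by_cases hi : p (Fin.castLE hsN i)
        · by_cases hj : p (Fin.castLE hsN j)
          · rw [dif_pos hi, dif_pos hj] at hij
            have := congrArg Subtype.val (Sum.inl_injective hij)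
            exact Fin.castLE_injective hsN this
          · rw [dif_pos hi, dif_neg hj] at hij
            exact absurd hij (by simp)
        · by_cases hj : p (Fin.castLE hsN j)
          · rw [dif_neg hi, dif_pos hj] at hij
            exact absurd hij (by simp)
          · rw [dif_neg hi, dif_neg hj] at hij
            have := congrArg (fun x => x.1.1) (Sum.inr_injective hij)
            exact Fin.castLE_injective hsN this
      rwa [Fintype.card_fin] at h4
    omega) r (by omega)
  obtain ⟨h3, h4⟩ := zeros_of_span r I hsm F hIF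
  exact ⟨F, hF, h3, h4, hIF⟩

end Pool.Agent.X269.HG
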