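import Pool.Agent.X269.HG.Top

/-!
Families of bilinear forms: elimination.
-/

set_option autoImplicit false

namespace Pool.Agent.X269.HG

open MvPolynomial
open Pool.Agent.X269.CT (pderiv_comm' totalDegree_pderiv_lt)

variable {K : Type} [Field K]

section ker

variable {σ : Type}

/-- the polynomials killed by the derivatives with respect to the variables in `L` -/
noncomputable def ker (K : Type) [Field K] (L : Set σ) : Subalgebra K (MvPolynomial σ K) where
  carrier := {f | ∀ l ∈ L, pderiv l f = 0}
  mul_mem' := by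
    intro f g hf hg l hl
    rw [Derivation.leibniz, hf l hl, hg l hl, smul_zero, smul_zero, add_zero]
  add_mem' := by
    intro f g hf hg l hl
    rw [map_add, hf l hl, hg l hl, add_zero]
  algebraMap_mem' := by
    intro c l _
    rw [algebraMap_eq, pderiv_C]

theorem mem_ker {L : Set σ} {f : MvPolynomial σ K} : f ∈ ker K L ↔ ∀ l ∈ L, pderiv l f = 0 :=
  Iff.rfl

theorem det_mem {R : Type*} [CommRing R] [Algebra K R] (A : Subalgebra K R) {ι : Type*} [Fintype ι]
    [DecidableEq ι] (M : Matrix ι ι R) (h : ∀ i j, M i j ∈ A) : M.det ∈ A := by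
  rw [Matrix.det_apply']
  refine A.sum_mem fun p _ => A.mul_mem ?_ (A.prod_mem fun i _ => h _ _)
  exact A.intCast_mem _

theorem adj_mem {R : Type*} [CommRing R] [Algebra K R] (A : Subalgebra K R) {ι : Type*}
    [Fintype ι] [DecidableEq ι] (M : Matrix ι ι R) (h : ∀ i j, M i j ∈ A) (a b : ι) :
    M.adjugate a b ∈ A := by
  rw [Matrix.adjugate_apply]
  apply det_mem
  intro i j
  rw [Matrix.updateRow_apply]
  split_ifs
  · rw [Pi.single_apply]
    split_ifs
    · exact A.one_mem
    · exact A.zero_mem
  · exact h i j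

end ker

variable {n : ℕ}

/-- the weight `1` on the first `s` variables, `0` on the others -/
def om (n s : ℕ) : Fin n → ℕ := fun k => if k.1 < s then 1 else 0

/-- the variables of weight `0` -/
def TT (n s : ℕ) : Set (Fin n) := {k | s ≤ k.1}

/-- a family of bilinear forms of maximal rank outside `0` -/
structure BilFam (s i : ℕ) (B : Fin i → MvPolynomial (Fin n) K) : Prop where
  top : ∀ a, Top (om n s) 1 (B a) (B a)
  lin : ∀ a, ∀ l, s ≤ l.1 → pderiv l (B a) ∈ ker K (TT n s)
  van : ∀ a x, (∀ k, s ≤ k.1 → x k = 0) → eval x (B a) = 0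
  hom : ∀ a, (B a).IsHomogeneous 2
  ind : ∀ w : Fin n → K, w ≠ 0 → (∀ k, s ≤ k.1 → w k = 0) → ∀ c : Fin i → K,
    (∀ l, s ≤ l.1 → ∑ a, c a * eval w (pderiv l (B a)) = 0) → c = 0

/-- the matrix of the minor -/
noncomputable def MM {i : ℕ} (B : Fin i → MvPolynomial (Fin n) K) (q : Fin i → Fin n) :
    Matrix (Fin i) (Fin i) (MvPolynomial (Fin n) K) :=
  Matrix.of fun b a => pderiv (q b) (B a)

variable {s i : ℕ} {B : Fin i → MvPolynomial (Fin n) K}

theorem BilFam.MM_mem (hB : BilFam s i B) {q : Fin i → Fin n} (hq : ∀ b, s ≤ (q b).1) (b a : Fin i) :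
    MM B q b a ∈ ker K (TT n s) := hB.lin a _ (hq b)

theorem BilFam.det_mem (hB : BilFam s i B) {q : Fin i → Fin n} (hq : ∀ b, s ≤ (q b).1) :
    (MM B q).det ∈ ker K (TT n s) := HG.det_mem _ _ fun b a => hB.MM_mem hq b a

theorem om_zero {l : Fin n} (hl : s ≤ l.1) : om n s l = 0 := if_neg (by omega)

theorem BilFam.det_top (hB : BilFam s i B) {q : Fin i → Fin n} (hq : ∀ b, s ≤ (q b).1) :
    Top (om n s) i (MM B q).det (MM B q).det := by
  have h := Top.det (ω := om n s) (n := fun _ : Fin i => 1) (G := MM B q) (T := MM B q)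
    fun b a => (hB.top a).pderiv (om_zero (hq b))
  simpa using h

/-- The main step of the elimination. -/
theorem lemmaA (hB : BilFam s i B) {F : Fin i → MvPolynomial (Fin n) K}
    (hF : ∀ a, Top (om n s) 1 (F a) (B a)) (J : Ideal (MvPolynomial (Fin n) K))
    (hmin : ∀ G ∈ J, ∀ c : Fin i ⊕ Unit → Fin n, (∀ b, s ≤ (c b).1) →
      Matrix.det (Matrix.of fun b a => pderiv (c b) (Sum.elim F (fun _ => G) a)) ∈ J)
    (hw : ∀ G ∈ J, ∀ k c, Top (om n s) k G c → c ∈ ker K (TT n s) → c = 0)
    {q : Fin i → Fin n} (hq : ∀ b, s ≤ (q b).1) (hδ : (MM B q).det ≠ 0) (N : ℕ) :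
    ∀ T : MvPolynomial (Fin n) K, T.totalDegree ≤ N → T ∈ ker K (Set.range q) →
      ∀ e, e ≠ 0 → e ∈ ker K (TT n s) → ∀ k G, G ∈ J → Top (om n s) k G (e * T) → T = 0 := by
  classical
  induction N with
  | zero =>
    intro T hT _ e he hek k G hG hTop
    have h1 : T ∈ ker K (TT n s) := by
      intro l _
      rw [totalDegree_eq_zero_iff_eq_C.1 (Nat.le_zero.1 hT), pderiv_C]
    have h2 := hw G hG k _ hTop ((ker K (TT n s)).mul_mem hek h1)
    exact (mul_eq_zero.1 h2).resolve_left he
  | succ N ih =>
    intro T hT hTq e he hek k G hG hTop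
    by_cases h1 : T ∈ ker K (TT n s)
    · have h2 := hw G hG k _ hTop ((ker K (TT n s)).mul_mem hek h1)
      exact (mul_eq_zero.1 h2).resolve_left he
    exfalso
    rw [mem_ker] at h1
    push Not at h1
    obtain ⟨l, hl, hlT⟩ := h1
    have hdeg : (pderiv l T).totalDegree ≤ N := by
      rcases Nat.eq_zero_or_pos T.totalDegree with h0 | h0
      · rw [totalDegree_eq_zero_iff_eq_C.1 h0, pderiv_C] at hlT
        exact absurd rfl hlT
      · have := totalDegree_pderiv_lt rfl h0 l
        omega
    apply hlT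
    set c : Fin i ⊕ Unit → Fin n := Sum.elim q (fun _ => l) with hc
    have hc0 : ∀ b, s ≤ (c b).1 := by
      rintro (b | b)
      · exact hq b
      · exact hl
    have h2 := hmin G hG c hc0
    have h3 := Top.det (ω := om n s) (n := Sum.elim (fun _ : Fin i => 1) (fun _ : Unit => k))
      (G := Matrix.of fun b a => pderiv (c b) (Sum.elim F (fun _ => G) a))
      (T := Matrix.of fun b a => pderiv (c b) (Sum.elim B (fun _ => e * T) a)) (by
        rintro b (a | a)
        · exact (hF a).pderiv (om_zero (hc0 b))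
        · exact hTop.pderiv (om_zero (hc0 b)))
    have h4 : Matrix.det (Matrix.of fun b a => pderiv (c b) (Sum.elim B (fun _ => e * T) a)) =
        ((MM B q).det * e) * pderiv l T := by
      have h5 : (Matrix.of fun b a => pderiv (c b) (Sum.elim B (fun _ => e * T) a)) =
          Matrix.fromBlocks (MM B q) 0 (Matrix.of fun _ a => pderiv l (B a))
            (Matrix.of fun (_ : Unit) (_ : Unit) => e * pderiv l T) := by
        ext1 b a
        rcases b with b | b <;> rcases a with a | a
        · rfl
        · simp only [Matrix.of_apply, hc, Sum.elim_inl, Sum.elim_inr, Matrix.fromBlocks_apply₁₂,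
            Matrix.zero_apply, Derivation.leibniz, smul_eq_mul]
          rw [hTq _ ⟨b, rfl⟩, hek _ (hq b), mul_zero, mul_zero, add_zero]
        · rfl
        · simp only [Matrix.of_apply, hc, Sum.elim_inr, Matrix.fromBlocks_apply₂₂,
            Derivation.leibniz, smul_eq_mul]
          rw [hek _ hl, mul_zero, add_zero]
      rw [h5, Matrix.det_fromBlocks_zero₁₂,
        Matrix.det_unique (Matrix.of fun (_ : Unit) (_ : Unit) => e * pderiv l T),
        Matrix.of_apply, mul_assoc]
    rw [h4] at h3
    exact ih (pderiv l T) hdeg (by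
      rintro _ ⟨b, rfl⟩
      rw [pderiv_comm', hTq _ ⟨b, rfl⟩, map_zero]) _ (mul_ne_zero hδ he)
      ((ker K (TT n s)).mul_mem (hB.det_mem hq) hek) _ _ h2 h3

/-- Cramer's rule -/
theorem cramer (hB : BilFam s i B) {q : Fin i → Fin n} (hq : ∀ b, s ≤ (q b).1)
    (hinj : Function.Injective q) (b : Fin i) :
    ∃ R ∈ ker K (Set.range q), (MM B q).det * X (q b) - R ∈ Ideal.span (Set.range B) := by
  classical
  set M := MM B q with hM
  have hle : ker K (TT n s) ≤ ker K (Set.range q) := by
    rintro f hf _ ⟨b, rfl⟩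
    exact hf _ (hq b)
  set R : Fin i → MvPolynomial (Fin n) K := fun a => B a - ∑ b, M b a * X (q b) with hR
  have hRk : ∀ a, R a ∈ ker K (Set.range q) := by
    rintro a _ ⟨b', rfl⟩
    rw [hR]
    simp only [map_sub, map_sum, Derivation.leibniz, smul_eq_mul]
    rw [sub_eq_zero, Finset.sum_eq_single b']
    · rw [pderiv_X_self, hM, hB.MM_mem hq b' a _ (hq b'), mul_zero, add_zero, mul_one]
      rfl
    · intro b _ hb
      rw [pderiv_X_of_ne (fun h => hb (hinj h)), hM, hB.MM_mem hq b a _ (hq b'), mul_zero,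
        mul_zero, add_zero]
    · intro h; exact absurd (Finset.mem_univ _) h
  refine ⟨-∑ a, R a * M.adjugate a b, ?_, ?_⟩
  · refine neg_mem (sum_mem fun a _ => mul_mem (hRk a) ?_)
    exact adj_mem _ _ (fun b a => hle (hB.MM_mem hq b a)) a b
  · have h1 : M.det * X (q b) - (-∑ a, R a * M.adjugate a b) = ∑ a, M.adjugate a b * B a := by
      have h2 : ∀ a, B a = R a + ∑ b', M b' a * X (q b') := fun a => by rw [hR]; ring
      have h3 : ∀ b', ∑ a, M b' a * M.adjugate a b = if b' = b then M.det else 0 := by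
        intro b'
        have := congrFun (congrFun (Matrix.mul_adjugate M) b') b
        rw [Matrix.mul_apply, Matrix.smul_apply, Matrix.one_apply, smul_eq_mul] at this
        rw [this]
        split_ifs
        · rw [mul_one]
        · rw [mul_zero]
      have h4 : ∑ a, M.adjugate a b * B a = ∑ a, R a * M.adjugate a b +
          ∑ b', X (q b') * ∑ a, M b' a * M.adjugate a b := by
        simp only [Finset.mul_sum]
        rw [Finset.sum_comm, ← Finset.sum_add_distrib]
        refine Finset.sum_congr rfl fun a _ => ?_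
        conv_lhs => rw [h2 a, mul_add, Finset.mul_sum]
        congr 1
        · ring
        · refine Finset.sum_congr rfl fun b' _ => ?_
          ring
      have h5 : ∑ b', X (q b') * (if b' = b then M.det else 0) = X (q b) * M.det := by
        rw [Finset.sum_eq_single b]
        · rw [if_pos rfl]
        · intro b' _ hb'
          rw [if_neg hb', mul_zero]
        · intro h; exact absurd (Finset.mem_univ _) h
      rw [h4]
      simp only [h3]
      rw [h5]
      ring
    rw [h1]
    exact Ideal.sum_mem _ fun a _ => Ideal.mul_mem_left _ _ (Ideal.subset_span ⟨a, rfl⟩)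

/-- elimination of the variables `q` -/
theorem reduce (hB : BilFam s i B) {q : Fin i → Fin n} (hq : ∀ b, s ≤ (q b).1)
    (T : MvPolynomial (Fin n) K) :
    ∃ N : ℕ, ∃ T' ∈ ker K (Set.range q),
      (MM B q).det ^ N * T - T' ∈ Ideal.span (Set.range B) := by
  classical
  by_cases hinj : Function.Injective q
  swap
  · have h0 : (MM B q).det = 0 := by
      unfold Function.Injective at hinj
      push Not at hinj
      obtain ⟨b, b', hbb, hne⟩ := hinj
      refine Matrix.det_zero_of_row_eq hne ?_
      funext a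
      simp only [MM, Matrix.of_apply, hbb]
    refine ⟨1, 0, zero_mem _, ?_⟩
    rw [h0, pow_one, zero_mul, sub_zero]
    exact Ideal.zero_mem _
  have hle : ker K (TT n s) ≤ ker K (Set.range q) := by
    rintro f hf _ ⟨b, rfl⟩
    exact hf _ (hq b)
  have hδ := hle (hB.det_mem hq)
  set δ := (MM B q).det with hδdef
  induction T using MvPolynomial.induction_on with
  | C c =>
    refine ⟨0, C c, fun l _ => pderiv_C, ?_⟩
    rw [pow_zero, one_mul, sub_self]
    exact Ideal.zero_mem _
  | add f g hf hg =>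
    obtain ⟨N, f', hf', hf⟩ := hf
    obtain ⟨N', g', hg', hg⟩ := hg
    refine ⟨N + N', δ ^ N' * f' + δ ^ N * g', add_mem (mul_mem (pow_mem hδ _) hf')
      (mul_mem (pow_mem hδ _) hg'), ?_⟩
    have : δ ^ (N + N') * (f + g) - (δ ^ N' * f' + δ ^ N * g') =
        δ ^ N' * (δ ^ N * f - f') + δ ^ N * (δ ^ N' * g - g') := by
      rw [pow_add]; ring
    rw [this]
    exact Ideal.add_mem _ (Ideal.mul_mem_left _ _ hf) (Ideal.mul_mem_left _ _ hg)
  | mul_X f k hf =>
    obtain ⟨N, f', hf', hf⟩ := hf
    by_cases hk : k ∈ Set.range q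
    · obtain ⟨b, rfl⟩ := hk
      obtain ⟨R, hR, hR2⟩ := cramer hB hq hinj b
      refine ⟨N + 1, f' * R, mul_mem hf' hR, ?_⟩
      have : δ ^ (N + 1) * (f * X (q b)) - f' * R =
          (δ * X (q b)) * (δ ^ N * f - f') + f' * (δ * X (q b) - R) := by
        rw [pow_succ]; ring
      rw [this]
      exact Ideal.add_mem _ (Ideal.mul_mem_left _ _ hf) (Ideal.mul_mem_left _ _ hR2)
    · refine ⟨N, f' * X k, mul_mem hf' ?_, ?_⟩
      · intro l hl
        rw [pderiv_X_of_ne]
        rintro rfl
        exact hk hl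
      · have : δ ^ N * (f * X k) - f' * X k = X k * (δ ^ N * f - f') := by ring
        rw [this]
        exact Ideal.mul_mem_left _ _ hf

end Pool.Agent.X269.HG
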