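import Pool.Agent.X269.HG.Rg
import Pool.Agent.X269.CT.Final

/-!
The elements of weight `m + 1`.
-/

set_option autoImplicit false

namespace Pool.Agent.X269.HG

open MvPolynomial
open Pool.Agent.W467.Sym (grad cone)
open Pool.Agent.X269.CT (pderiv_comm' pderiv_high weight_of_lin lin_eq_coeff)
open H503R3.QCI (NZD Reg)

variable {K : Type} [Field K] {n : ℕ}

/-- the weights `m` and `1` -/
def wg (n s m : ℕ) : Fin n → ℕ := fun k => if k.1 < s then m else 1

theorem wg_pos {s m : ℕ} (hm : 0 < m) (k : Fin n) : 0 < wg n s m k := by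
  unfold wg
  split_ifs
  · exact hm
  · exact one_pos

/-- the first variables -/
def SS (n s : ℕ) : Set (Fin n) := {k | k.1 < s}

/-- the coefficients of the bilinear part -/
noncomputable def GG (s : ℕ) (P : MvPolynomial (Fin n) K) (j l : Fin n) : K :=
  if s ≤ l.1 then eval 0 (pderiv l (pderiv j P)) else 0

variable {s m : ℕ} {P : MvPolynomial (Fin n) K}

section low

variable (hm : 2 ≤ m) (hP : IsWeightedHomogeneous (wg n s m) P (m + 1))

include hm hP

theorem pd_S {j : Fin n} (hj : j.1 < s) : IsWeightedHomogeneous (wg n s m) (pderiv j P) 1 :=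
  hP.pderiv (by rw [wg, if_pos hj]; omega)

theorem pd_T {l : Fin n} (hl : s ≤ l.1) : IsWeightedHomogeneous (wg n s m) (pderiv l P) m :=
  hP.pderiv (by rw [wg, if_neg (by omega)])

theorem pd_SS {i j : Fin n} (hi : i.1 < s) (hj : j.1 < s) : pderiv i (pderiv j P) = 0 := by
  rw [pderiv_high (fun k => wg_pos (by omega) k) (pd_S hm hP hj) (by rw [wg, if_pos hi]; omega)]
  by_cases h : CT.lin i (pderiv j P) = 0
  · rw [h, C_0]
  · have h1 := weight_of_lin (pd_S hm hP hj) h
    rw [wg, if_pos hi] at h1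
    omega

theorem pd_ST {j l : Fin n} (hj : j.1 < s) (hl : s ≤ l.1) :
    pderiv l (pderiv j P) = C (GG s P j l) := by
  rw [pderiv_high (fun k => wg_pos (by omega) k) (pd_S hm hP hj)
    (by rw [wg, if_neg (by omega : ¬ l.1 < s)])]
  rw [GG, if_pos hl, CT.lin]

theorem pd_S_eq {j : Fin n} (hj : j.1 < s) : pderiv j P = ∑ l, C (GG s P j l) * X l := by
  have h1 := (pd_S hm hP hj).sum_weight_X_mul_pderiv
  rw [one_smul] at h1
  rw [← h1]
  refine Finset.sum_congr rfl fun l _ => ?_
  by_cases hl : l.1 < s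
  · rw [pd_SS hm hP hl hj, mul_zero, smul_zero, GG, if_neg (by omega), C_0, zero_mul]
  · rw [pd_ST hm hP hj (by omega), wg, if_neg hl, one_smul, mul_comm]

theorem eval_pd_S {j : Fin n} (hj : j.1 < s) {w : Fin n → K} (hw : ∀ k, s ≤ k.1 → w k = 0) :
    eval w (pderiv j P) = 0 := by
  rw [pd_S_eq hm hP hj, map_sum]
  refine Finset.sum_eq_zero fun l _ => ?_
  rw [map_mul, eval_C, eval_X]
  by_cases hl : l.1 < s
  · rw [GG, if_neg (by omega), zero_mul]
  · rw [hw l (by omega), mul_zero]

theorem eval_pd_T [CharZero K] {l : Fin n} (hl : s ≤ l.1) {w : Fin n → K}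
    (hw : ∀ k, s ≤ k.1 → w k = 0) : eval w (pderiv l P) = ∑ j, w j * GG s P j l := by
  have h1 := congrArg (eval w) (pd_T hm hP hl).sum_weight_X_mul_pderiv
  simp only [map_sum, map_nsmul, map_mul, eval_X] at h1
  have h2 : ∑ i, wg n s m i • (w i * eval w (pderiv i (pderiv l P))) =
      m • ∑ j, w j * GG s P j l := by
    rw [Finset.smul_sum]
    refine Finset.sum_congr rfl fun i _ => ?_
    by_cases hi : i.1 < s
    · rw [wg, if_pos hi, pderiv_comm', pd_ST hm hP hi hl, eval_C]
    · rw [hw i (by omega), zero_mul, zero_mul, smul_zero, smul_zero]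
  rw [h2, nsmul_eq_mul, nsmul_eq_mul] at h1
  have h3 : (m : K) ≠ 0 := Nat.cast_ne_zero.2 (by omega)
  exact (mul_left_cancel₀ h3 h1).symm

end low

/-- the linear map attached to an element of weight `m + 1` -/
noncomputable def Lm (s : ℕ) (P : MvPolynomial (Fin n) K) : (Fin n → K) →ₗ[K] (Fin n → K) where
  toFun w := fun l => ∑ j, w j * GG s P j l
  map_add' v w := by
    funext l
    simp only [Pi.add_apply, add_mul, Finset.sum_add_distrib]
  map_smul' c w := by
    funext l
    simp only [Pi.smul_apply, smul_eq_mul, Finset.mul_sum, RingHom.id_apply, mul_assoc]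

theorem Lm_eq [CharZero K] (hm : 2 ≤ m) (hP : IsWeightedHomogeneous (wg n s m) P (m + 1))
    {w : Fin n → K} (hw : ∀ k, s ≤ k.1 → w k = 0) : grad P w = Lm s P w := by
  funext l
  show eval w (pderiv l P) = ∑ j, w j * GG s P j l
  by_cases hl : l.1 < s
  · rw [eval_pd_S hm hP hl hw]
    symm
    refine Finset.sum_eq_zero fun j _ => ?_
    rw [GG, if_neg (by omega), mul_zero]
  · exact eval_pd_T hm hP (by omega) hw

/-- the bilinear part -/
noncomputable def BB (s : ℕ) (P : MvPolynomial (Fin n) K) : MvPolynomial (Fin n) K :=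
  ∑ j : Fin n, if j.1 < s then X j * pderiv j P else 0

theorem top_ker [CharZero K] {f : MvPolynomial (Fin n) K} (hf : f ∈ ker K (SS n s)) :
    Phi (om n s) f = Polynomial.C f := by
  classical
  ext1 k
  rw [Phi_coeff, Polynomial.coeff_C]
  apply MvPolynomial.ext
  intro u
  rw [coeff_comp]
  by_cases hu : coeff u f = 0
  · rw [hu]
    split_ifs
    · exact hu.symm
    · rfl
    · exact hu.symm
    · rfl
  · have h1 : Finsupp.weight (om n s) u = 0 := by
      rw [Finsupp.weight_apply, Finsupp.sum]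
      refine Finset.sum_eq_zero fun l _ => ?_
      by_cases hl : l.1 < s
      · rw [ker_support hf hu (show l ∈ SS n s from hl), zero_smul]
      · rw [om, if_neg hl, smul_zero]
    rw [h1]
    by_cases hk : k = 0
    · rw [if_pos hk.symm, if_pos hk]
    · rw [if_neg (Ne.symm hk), if_neg hk, coeff_zero]

theorem Top.of_ker [CharZero K] {f : MvPolynomial (Fin n) K} (hf : f ∈ ker K (SS n s)) :
    Top (om n s) 0 f f := by
  refine ⟨?_, ?_⟩
  · rw [top_ker hf, Polynomial.natDegree_C]
  · rw [top_ker hf, Polynomial.coeff_C_zero]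

theorem Top.of_ker' [CharZero K] {f : MvPolynomial (Fin n) K} (hf : f ∈ ker K (SS n s)) :
    Top (om n s) 1 f 0 := by
  refine ⟨?_, ?_⟩
  · rw [top_ker hf, Polynomial.natDegree_C]
    exact Nat.zero_le _
  · rw [top_ker hf, Polynomial.coeff_C, if_neg one_ne_zero]

section low2

variable [CharZero K] (hm : 2 ≤ m) (hP : IsWeightedHomogeneous (wg n s m) P (m + 1))

include hm hP

theorem BB_self : Top (om n s) 1 (BB s P) (BB s P) := by
  apply Top.sum
  intro j _
  by_cases hj : j.1 < s
  · rw [if_pos hj]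
    have h1 : Top (om n s) (om n s j) (X j : MvPolynomial (Fin n) K) (X j) := Top.X j
    rw [om, if_pos hj] at h1
    have h2 : Top (om n s) 0 (pderiv j P) (pderiv j P) :=
      Top.of_ker fun i hi => pd_SS hm hP hi hj
    exact h1.mul h2
  · rw [if_neg hj]
    exact Top.zero 1

theorem BB_top : Top (om n s) 1 P (BB s P) := by
  have h1 : P - BB s P ∈ ker K (SS n s) := by
    intro i hi
    have hi' : i.1 < s := hi
    rw [map_sub, BB, map_sum, Finset.sum_eq_single i]
    · rw [if_pos hi', Derivation.leibniz, pderiv_X_self, pd_SS hm hP hi' hi', smul_zero, zero_add,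
        smul_eq_mul, mul_one, sub_self]
    · intro j _ hj
      by_cases hj' : j.1 < s
      · rw [if_pos hj', Derivation.leibniz, pderiv_X_of_ne hj, pd_SS hm hP hi' hj', smul_zero,
          smul_zero, add_zero]
      · rw [if_neg hj', map_zero]
    · intro h; exact absurd (Finset.mem_univ _) h
  have h2 := (Top.of_ker' h1).add (BB_self hm hP)
  rwa [sub_add_cancel, zero_add] at h2

theorem BB_pd {l : Fin n} (hl : s ≤ l.1) :
    pderiv l (BB s P) = ∑ j, if j.1 < s then C (GG s P j l) * X j else 0 := by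
  rw [BB, map_sum]
  refine Finset.sum_congr rfl fun j _ => ?_
  by_cases hj : j.1 < s
  · rw [if_pos hj, if_pos hj, Derivation.leibniz, pd_ST hm hP hj hl, pderiv_X_of_ne, smul_zero,
      add_zero, smul_eq_mul, mul_comm]
    rintro rfl
    omega
  · rw [if_neg hj, if_neg hj, map_zero]

theorem BB_lin {l : Fin n} (hl : s ≤ l.1) : pderiv l (BB s P) ∈ ker K (TT n s) := by
  rw [BB_pd hm hP hl]
  refine sum_mem fun j _ => ?_
  by_cases hj : j.1 < s
  · rw [if_pos hj]
    refine mul_mem (fun i _ => pderiv_C) fun i hi => ?_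
    rw [pderiv_X_of_ne]
    rintro rfl
    have : s ≤ j.1 := hi
    omega
  · rw [if_neg hj]
    exact zero_mem _

theorem BB_van {x : Fin n → K} (hx : ∀ k, s ≤ k.1 → x k = 0) : eval x (BB s P) = 0 := by
  rw [BB, map_sum]
  refine Finset.sum_eq_zero fun j _ => ?_
  by_cases hj : j.1 < s
  · rw [if_pos hj, map_mul, eval_pd_S hm hP hj hx, mul_zero]
  · rw [if_neg hj, map_zero]

theorem BB_hom : (BB s P).IsHomogeneous 2 := by
  refine IsHomogeneous.sum _ _ _ fun j _ => ?_
  by_cases hj : j.1 < s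
  · rw [if_pos hj, pd_S_eq hm hP hj]
    refine (isHomogeneous_X K j).mul (n := 1) ?_
    refine IsHomogeneous.sum _ _ _ fun l _ => ?_
    have := (isHomogeneous_C (Fin n) (GG s P j l)).mul (isHomogeneous_X K l)
    rwa [zero_add] at this
  · rw [if_neg hj]
    exact isHomogeneous_zero _ _ _

theorem BB_eval {l : Fin n} (hl : s ≤ l.1) {w : Fin n → K} (hw : ∀ k, s ≤ k.1 → w k = 0) :
    eval w (pderiv l (BB s P)) = Lm s P w l := by
  rw [BB_pd hm hP hl, map_sum]
  show _ = ∑ j, w j * GG s P j l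
  refine Finset.sum_congr rfl fun j _ => ?_
  by_cases hj : j.1 < s
  · rw [if_pos hj, map_mul, eval_C, eval_X, mul_comm]
  · rw [if_neg hj, map_zero, hw j (by omega), zero_mul]

end low2

end Pool.Agent.X269.HG
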