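import Pool.Agent.X269.HG.Core

/-!
The algebraic theorem: the kernels are constant.
-/

set_option autoImplicit false

namespace Pool.Agent.X269.HG

open MvPolynomial
open Pool.Agent.W467.Sym (grad cone)
open Pool.Agent.X269.CT (pderiv_comm' pderiv_high weight_of_lin lin_eq_coeff mem_of_cone)
open H503R3.QCI (NZD Reg)

variable {K : Type} [Field K] {n : ℕ}

/-- the gradient as a linear map -/
noncomputable def gradL (x : Fin n → K) : MvPolynomial (Fin n) K →ₗ[K] (Fin n → K) where
  toFun P := grad P x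
  map_add' P Q := by funext l; simp [grad]
  map_smul' c P := by funext l; simp [grad]

theorem gradL_apply (x : Fin n → K) (P : MvPolynomial (Fin n) K) : gradL x P = grad P x := rfl

/-- the hypotheses of the algebraic theorem -/
structure Core (s m ρ : ℕ) (J : Ideal (MvPolynomial (Fin n) K)) : Prop where
  hm : 2 ≤ m
  hsn : s ≤ n
  h2 : 2 * ρ ≤ s
  prime : J.IsPrime
  comp : ∀ G ∈ J, ∀ d, weightedHomogeneousComponent (wg n s m) d G ∈ J
  jac : ∀ P : Fin ρ ⊕ Unit → MvPolynomial (Fin n) K, (∀ a, P a ∈ J) → ∀ c : Fin ρ ⊕ Unit → Fin n,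
    Matrix.det (Matrix.of fun b a => pderiv (c b) (P a)) ∈ J
  nolin : ∀ G ∈ J, ∀ u, CT.lin u G = 0
  van : ∀ G ∈ J, ∀ w : Fin n → K, (∀ k, s ≤ k.1 → w k = 0) → eval w G = 0
  rk : ∀ w : Fin n → K, w ≠ 0 → (∀ k, s ≤ k.1 → w k = 0) → ρ ≤ Module.finrank K
    (Submodule.span K {ξ | ∃ P ∈ J, IsWeightedHomogeneous (wg n s m) P (m + 1) ∧ ξ = grad P w})

/-- the elements of weight `m + 1` -/
noncomputable def Low (s m : ℕ) (J : Ideal (MvPolynomial (Fin n) K)) :
    Submodule K (MvPolynomial (Fin n) K) :=
  J.restrictScalars K ⊓ weightedHomogeneousSubmodule K (wg n s m) (m + 1)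

theorem mem_Low {s m : ℕ} {J : Ideal (MvPolynomial (Fin n) K)} {P : MvPolynomial (Fin n) K} :
    P ∈ Low s m J ↔ P ∈ J ∧ IsWeightedHomogeneous (wg n s m) P (m + 1) := Iff.rfl

variable {s m ρ : ℕ} {J : Ideal (MvPolynomial (Fin n) K)}

theorem Core.rk' (hC : Core s m ρ J) {w : Fin n → K} (hw0 : w ≠ 0)
    (hw : ∀ k, s ≤ k.1 → w k = 0) : ρ ≤ Module.finrank K ((Low s m J).map (gradL w)) := by
  have h := hC.rk w hw0 hw
  have h1 : Submodule.span K {ξ | ∃ P ∈ J, IsWeightedHomogeneous (wg n s m) P (m + 1) ∧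
      ξ = grad P w} = (Low s m J).map (gradL w) := by
    apply le_antisymm
    · rw [Submodule.span_le]
      rintro _ ⟨P, hP, hPw, rfl⟩
      exact ⟨P, ⟨hP, hPw⟩, rfl⟩
    · rintro _ ⟨P, ⟨hP, hPw⟩, rfl⟩
      exact Submodule.subset_span ⟨P, hP, hPw, rfl⟩
  rwa [h1] at h

/-- the rank of the gradients is at most `ρ` -/
theorem Core.rank_le (hC : Core s m ρ J) {x : Fin n → K} (hx : ∀ G ∈ J, eval x G = 0) :
    Module.finrank K ((J.restrictScalars K).map (gradL x)) ≤ ρ := by
  classical
  by_contra h
  push Not at h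
  obtain ⟨f, hf⟩ := exists_linearIndependent_of_le_finrank
    (R := K) (M := (J.restrictScalars K).map (gradL x)) (n := ρ + 1) h
  have h1 : ∀ a, ∃ P ∈ J, grad P x = (f a : Fin n → K) := by
    intro a
    obtain ⟨P, hP, hPa⟩ := (f a).2
    exact ⟨P, hP, hPa⟩
  choose P hP hPf using h1
  set e : Fin ρ ⊕ Unit → Fin (ρ + 1) := Sum.elim Fin.castSucc (fun _ => Fin.last ρ) with he
  have hinj : Function.Injective e := by
    rintro (a | a) (b | b) hab
    · exact congrArg Sum.inl (Fin.castSucc_injective _ hab)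
    · exact absurd hab (Fin.castSucc_lt_last a).ne
    · exact absurd hab (Fin.castSucc_lt_last b).ne'
    · rfl
  have hf2 : LinearIndependent K (fun a => ((f (e a) : (J.restrictScalars K).map (gradL x)) :
      Fin n → K)) := by
    have := (hf.comp e hinj).map' ((J.restrictScalars K).map (gradL x)).subtype
      (Submodule.ker_subtype _)
    exact this
  obtain ⟨c, hc⟩ := exists_det_ne_zero (fun a l => (f (e a) : Fin n → K) l) (by
    intro p hp
    rw [Fintype.linearIndependent_iff] at hf2
    funext a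
    refine hf2 p ?_ a
    funext l
    rw [Finset.sum_apply]
    exact hp l)
  apply hc
  have h2 := hx _ (hC.jac (fun a => P (e a)) (fun a => hP _) c)
  rw [RingHom.map_det] at h2
  rw [← h2]
  congr 1
  ext b a
  simp only [Matrix.of_apply, RingHom.mapMatrix_apply, Matrix.map_apply]
  rw [← hPf]
  rfl

theorem Core.low_le (hC : Core s m ρ J) {x : Fin n → K} (hx : ∀ G ∈ J, eval x G = 0) :
    Module.finrank K ((Low s m J).map (gradL x)) ≤ ρ :=
  (Submodule.finrank_mono (Submodule.map_mono inf_le_left)).trans (hC.rank_le hx)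

/-- the tangent condition of constant rank -/
theorem Core.tangent [CharZero K] (hC : Core s m ρ J) {P : MvPolynomial (Fin n) K}
    (hP : P ∈ Low s m J) {w : Fin n → K} (hw0 : w ≠ 0) (hw : ∀ k, s ≤ k.1 → w k = 0)
    (hPw : Lm s P w = 0) {v : Fin n → K} (hv : ∀ k, s ≤ k.1 → v k = 0) :
    Lm s P v ∈ (Low s m J).map (gradL w) := by
  classical
  by_contra hno
  obtain ⟨f, hf⟩ := exists_linearIndependent_of_le_finrank (R := K) (hC.rk' hw0 hw)
  have h1 : ∀ a, ∃ P ∈ Low s m J, grad P w = (f a : Fin n → K) := by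
    intro a
    obtain ⟨P, hP, hPa⟩ := (f a).2
    exact ⟨P, hP, hPa⟩
  choose Q hQ hQf using h1
  have hf2 : LinearIndependent K (fun a => ((f a : (Low s m J).map (gradL w)) : Fin n → K)) :=
    hf.map' ((Low s m J).map (gradL w)).subtype (Submodule.ker_subtype _)
  obtain ⟨c, hc⟩ := exists_det_ne_zero
    (Sum.elim (fun a => (f a : Fin n → K)) (fun _ : Unit => Lm s P v)) (by
    intro p hp
    simp only [Fintype.sum_sum_type, Sum.elim_inl, Sum.elim_inr, Finset.univ_unique,
      Finset.sum_singleton] at hp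
    have h2 : p (Sum.inr PUnit.unit) = 0 := by
      by_contra h3
      apply hno
      have h4 : Lm s P v = -(p (Sum.inr PUnit.unit))⁻¹ • ∑ a, p (Sum.inl a) • (f a : Fin n → K) := by
        funext l
        have h5 := hp l
        rw [Pi.smul_apply, Finset.sum_apply, smul_eq_mul]
        simp only [Pi.smul_apply, smul_eq_mul]
        have h6 : ∑ a, p (Sum.inl a) * (f a : Fin n → K) l =
            - (p (Sum.inr PUnit.unit) * Lm s P v l) := eq_neg_of_add_eq_zero_left h5
        rw [h6]
        field_simp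
      rw [h4]
      exact Submodule.smul_mem _ _ (Submodule.sum_mem _ fun a _ =>
        Submodule.smul_mem _ _ (f a).2)
    rw [Fintype.linearIndependent_iff] at hf2
    funext a
    rcases a with a | a
    · refine hf2 (fun a => p (Sum.inl a)) ?_ a
      funext l
      have h5 := hp l
      have h6 : p (Sum.inr default) = 0 := h2
      rw [h6, zero_mul, add_zero] at h5
      rw [Finset.sum_apply]
      exact h5
    · exact h2)
  set D : Polynomial K := Matrix.det (Matrix.of fun b a => Sum.elim
    (fun a => Polynomial.C (Lm s (Q a) w (c b)) + Polynomial.X * Polynomial.C (Lm s (Q a) v (c b)))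
    (fun _ : Unit => Polynomial.C (Lm s P v (c b))) a) with hD
  have hev : ∀ t, D.eval t = Matrix.det (Matrix.of fun b a => Sum.elim
      (fun a => Lm s (Q a) w (c b) + t * Lm s (Q a) v (c b))
      (fun _ : Unit => Lm s P v (c b)) a) := by
    intro t
    rw [hD, ← Polynomial.coe_evalRingHom, RingHom.map_det]
    congr 1
    ext b a
    rcases a with a | a
    · simp only [RingHom.mapMatrix_apply, Matrix.map_apply, Matrix.of_apply, Sum.elim_inl,
        Polynomial.coe_evalRingHom, Polynomial.eval_add, Polynomial.eval_mul, Polynomial.eval_C,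
        Polynomial.eval_X]
    · simp only [RingHom.mapMatrix_apply, Matrix.map_apply, Matrix.of_apply, Sum.elim_inr,
        Polynomial.coe_evalRingHom, Polynomial.eval_C]
  have hzero : Polynomial.X * D = 0 := by
    apply Polynomial.funext
    intro t
    rw [Polynomial.eval_mul, Polynomial.eval_X, Polynomial.eval_zero, hev]
    have hwt : ∀ k, s ≤ k.1 → (w + t • v) k = 0 := by
      intro k hk
      rw [Pi.add_apply, Pi.smul_apply, hw k hk, hv k hk, smul_zero, add_zero]
    have h2 := hC.van _ (hC.jac (Sum.elim Q (fun _ => P)) (by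
      rintro (a | a)
      · exact (hQ a).1
      · exact hP.1) c) (w + t • v) hwt
    rw [RingHom.map_det] at h2
    have h3 := Matrix.det_mul_row (Sum.elim (fun _ : Fin ρ => (1 : K)) (fun _ : Unit => t))
      (Matrix.of fun b a => Sum.elim
      (fun a => Lm s (Q a) w (c b) + t * Lm s (Q a) v (c b))
      (fun _ : Unit => Lm s P v (c b)) a)
    rw [Fintype.prod_sum_type] at h3
    simp only [Sum.elim_inl, Sum.elim_inr, Finset.prod_const_one, one_mul, Finset.univ_unique,
      Finset.prod_singleton] at h3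
    rw [← h3, ← h2]
    congr 1
    ext b a
    rcases a with a | a
    · simp only [Matrix.of_apply, Sum.elim_inl, one_mul, RingHom.mapMatrix_apply, Matrix.map_apply]
      have h4 := congrFun (Lm_eq hC.hm (hQ a).2 hwt) (c b)
      rw [map_add, map_smul] at h4
      exact h4.symm
    · simp only [Matrix.of_apply, Sum.elim_inr, RingHom.mapMatrix_apply, Matrix.map_apply]
      have h4 := congrFun (Lm_eq hC.hm hP.2 hwt) (c b)
      rw [map_add, map_smul, hPw, zero_add] at h4
      exact h4.symm
  have hD0 : D = 0 := (mul_eq_zero.1 hzero).resolve_left Polynomial.X_ne_zero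
  apply hc
  have h5 := hev 0
  rw [hD0, Polynomial.eval_zero] at h5
  rw [h5]
  congr 1
  ext b a
  rcases a with a | a
  · simp only [Matrix.of_apply, Sum.elim_inl, zero_mul, add_zero]
    rw [← hQf, Lm_eq hC.hm (hQ a).2 hw]
  · simp only [Matrix.of_apply, Sum.elim_inr]

end Pool.Agent.X269.HG
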