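import Pool.Agent.X269.HG.Core2

/-!
The algebraic theorem: the kernels are constant.
-/

set_option autoImplicit false

namespace Pool.Agent.X269.HG

open MvPolynomial
open Pool.Agent.W467.Sym (grad cone)
open Pool.Agent.X269.CT (pderiv_comm' pderiv_high weight_of_lin lin_eq_coeff mem_of_cone)

variable {K : Type} [Field K] {n : ℕ}

/-- the vectors supported on the first `s` coordinates -/
def Sup (K : Type) [Field K] (n s : ℕ) : Submodule K (Fin n → K) where
  carrier := {w | ∀ k, s ≤ k.1 → w k = 0}
  add_mem' := by
    intro v w hv hw k hk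
    rw [Pi.add_apply, hv k hk, hw k hk, add_zero]
  zero_mem' := fun _ _ => rfl
  smul_mem' := by
    intro c v hv k hk
    rw [Pi.smul_apply, hv k hk, smul_zero]

theorem finrank_Sup {s : ℕ} (hsn : s ≤ n) : Module.finrank K (Sup K n s) = s := by
  let e : Sup K n s ≃ₗ[K] (Fin s → K) :=
    { toFun := fun w j => (w : Fin n → K) (Fin.castLE hsn j)
      map_add' := fun v w => rfl
      map_smul' := fun c v => rfl
      invFun := fun v => ⟨fun k => if h : k.1 < s then v ⟨k.1, h⟩ else 0, by
        intro k hk
        exact dif_neg (by omega)⟩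
      left_inv := by
        intro w
        apply Subtype.ext
        funext k
        by_cases h : k.1 < s
        · show dite _ _ _ = _
          rw [dif_pos h]
          rfl
        · show dite _ _ _ = _
          rw [dif_neg h]
          exact (w.2 k (by omega)).symm
      right_inv := by
        intro v
        funext j
        show dite _ _ _ = _
        rw [dif_pos (by simp)]
        rfl }
  rw [LinearEquiv.finrank_eq e, Module.finrank_fintype_fun_eq_card, Fintype.card_fin]

variable {s m ρ : ℕ} {J : Ideal (MvPolynomial (Fin n) K)}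

theorem pair_eq [CharZero K] (hm : 2 ≤ m) {P : MvPolynomial (Fin n) K}
    (hP : IsWeightedHomogeneous (wg n s m) P (m + 1)) {v : Fin n → K}
    (hv : ∀ k, s ≤ k.1 → v k = 0) (x : Fin n → K) :
    ∑ j, v j * grad P x j = ∑ l, Lm s P v l * x l := by
  have h1 : ∀ j, v j * grad P x j = ∑ l, v j * GG s P j l * x l := by
    intro j
    by_cases hj : j.1 < s
    · show v j * eval x (pderiv j P) = _
      rw [pd_S_eq hm hP hj, map_sum, Finset.mul_sum]
      refine Finset.sum_congr rfl fun l _ => ?_
      rw [map_mul, eval_C, eval_X, mul_assoc]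
    · rw [hv j (by omega), zero_mul]
      symm
      refine Finset.sum_eq_zero fun l _ => ?_
      rw [zero_mul, zero_mul]
  simp only [h1]
  rw [Finset.sum_comm]
  refine Finset.sum_congr rfl fun l _ => ?_
  rw [← Finset.sum_mul]
  rfl

/-- the kernels are constant -/
theorem Core.unif [IsAlgClosed K] [CharZero K] (hC : Core s m ρ J) {P : MvPolynomial (Fin n) K}
    (hP : P ∈ Low s m J) {w0 : Fin n → K} (hw00 : w0 ≠ 0) (hw0 : ∀ k, s ≤ k.1 → w0 k = 0)
    (h0 : Lm s P w0 = 0) {w1 : Fin n → K} (hw1 : ∀ k, s ≤ k.1 → w1 k = 0) : Lm s P w1 = 0 := by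
  classical
  have := hC.prime
  by_contra hne
  set L : Sup K n s →ₗ[K] (Fin n → K) := (Lm s P).comp (Sup K n s).subtype with hL
  have hLv : ∀ v : Sup K n s, L v = Lm s P v := fun v => rfl
  -- the rank of `L`
  have hr : Module.finrank K (LinearMap.range L) ≤ ρ := by
    refine (Submodule.finrank_mono ?_).trans
      (hC.low_le (x := w0) fun G hG => hC.van G hG w0 hw0)
    rintro _ ⟨v, rfl⟩
    exact hC.tangent hP hw00 hw0 h0 v.2
  have hk := LinearMap.finrank_range_add_finrank_ker L
  rw [finrank_Sup hC.hsn] at hk
  -- the subspace `C`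
  set w1' : Sup K n s := ⟨w1, hw1⟩ with hw1'
  set C : Submodule K (Sup K n s) := LinearMap.ker L ⊔ Submodule.span K {w1'} with hCdef
  have hw1ne : w1' ≠ 0 := by
    intro h
    apply hne
    have : w1 = 0 := congrArg Subtype.val h
    rw [this, map_zero]
  have hCf : Module.finrank K C = Module.finrank K (LinearMap.ker L) + 1 := by
    have h1 := Submodule.finrank_sup_add_finrank_inf_eq (LinearMap.ker L)
      (Submodule.span K {w1'})
    have h2 : LinearMap.ker L ⊓ Submodule.span K {w1'} = ⊥ := by
      rw [eq_bot_iff]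
      rintro x ⟨hx1, hx2⟩
      obtain ⟨c, rfl⟩ := Submodule.mem_span_singleton.1 hx2
      have h3 : L (c • w1') = 0 := hx1
      rw [map_smul] at h3
      rcases smul_eq_zero.1 h3 with h4 | h4
      · rw [h4, zero_smul]
        exact Submodule.zero_mem _
      · exact absurd h4 hne
    rw [h2, finrank_bot, add_zero, finrank_span_singleton hw1ne] at h1
    exact h1
  -- the point
  obtain ⟨u, hu⟩ : ∃ u, Lm s P w1 u ≠ 0 := by
    by_contra h
    push Not at h
    exact hne (funext h)
  have hℓ : (∑ l, MvPolynomial.C (Lm s P w1 l) * X l : MvPolynomial (Fin n) K) ∉ J := by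
    intro h
    apply hu
    have h1 := hC.nolin _ h u
    rw [CT.lin, map_sum, map_sum, Finset.sum_eq_single u] at h1
    · rw [pderiv_C_mul, pderiv_X_self] at h1
      simpa using h1
    · intro l _ hl
      rw [pderiv_C_mul, pderiv_X_of_ne hl]
      simp
    · intro h; exact absurd (Finset.mem_univ _) h
  obtain ⟨x, hx, hxℓ⟩ : ∃ x ∈ cone J,
      eval x (∑ l, MvPolynomial.C (Lm s P w1 l) * X l : MvPolynomial (Fin n) K) ≠ 0 := by
    by_contra h
    push Not at h
    exact hℓ (mem_of_cone J h)
  have hRx := hC.low_le (x := x) hx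
  set Rx := (Low s m J).map (gradL x) with hRxdef
  let Ψ : C →ₗ[K] Module.Dual K Rx :=
    { toFun := fun v =>
        { toFun := fun r => ∑ j, ((v : Sup K n s) : Fin n → K) j * (r : Fin n → K) j
          map_add' := by
            intro r r'
            rw [← Finset.sum_add_distrib]
            refine Finset.sum_congr rfl fun j _ => ?_
            rw [Submodule.coe_add, Pi.add_apply, mul_add]
          map_smul' := by
            intro c r
            rw [RingHom.id_apply, smul_eq_mul, Finset.mul_sum]
            refine Finset.sum_congr rfl fun j _ => ?_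
            rw [Submodule.coe_smul, Pi.smul_apply, smul_eq_mul]
            ring }
      map_add' := by
        intro v v'
        ext r
        simp only [LinearMap.coe_mk, AddHom.coe_mk, LinearMap.add_apply]
        rw [← Finset.sum_add_distrib]
        refine Finset.sum_congr rfl fun j _ => ?_
        rw [Submodule.coe_add, Submodule.coe_add, Pi.add_apply, add_mul]
      map_smul' := by
        intro c v
        ext r
        simp only [LinearMap.coe_mk, AddHom.coe_mk, LinearMap.smul_apply, RingHom.id_apply,
          smul_eq_mul]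
        rw [Finset.mul_sum]
        refine Finset.sum_congr rfl fun j _ => ?_
        rw [Submodule.coe_smul, Submodule.coe_smul, Pi.smul_apply, smul_eq_mul]
        ring }
  have hinj : Function.Injective Ψ := by
    rw [injective_iff_map_eq_zero]
    intro v hv
    by_contra hv0
    have hvs : ∀ k : Fin n, s ≤ k.1 → ((v : Sup K n s) : Fin n → K) k = 0 := (v : Sup K n s).2
    have hv1 : ((v : Sup K n s) : Fin n → K) ≠ 0 := by
      intro h
      exact hv0 (Subtype.ext (Subtype.ext h))
    obtain ⟨P', hP', hPv⟩ : ∃ P' ∈ Low s m J,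
        grad P' ((v : Sup K n s) : Fin n → K) = Lm s P w1 := by
      obtain ⟨a, ha, b, hb, hab⟩ := Submodule.mem_sup.1 v.2
      obtain ⟨c, rfl⟩ := Submodule.mem_span_singleton.1 hb
      have h1 : Lm s P ((v : Sup K n s) : Fin n → K) = c • Lm s P w1 := by
        rw [← hLv, ← hab, map_add, map_smul]
        have : L a = 0 := ha
        rw [this, zero_add]
        rfl
      by_cases hc : c = 0
      · rw [hc, zero_smul] at h1
        obtain ⟨P', hP', h2⟩ := hC.tangent hP hv1 hvs h1 hw1
        exact ⟨P', hP', h2⟩
      · refine ⟨c⁻¹ • P, (Low s m J).smul_mem _ hP, ?_⟩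
        have h2 : grad (c⁻¹ • P) ((v : Sup K n s) : Fin n → K) =
            c⁻¹ • grad P ((v : Sup K n s) : Fin n → K) := (gradL _).map_smul _ _
        rw [h2, Lm_eq hC.hm hP.2 hvs, h1, smul_smul, inv_mul_cancel₀ hc, one_smul]
    have h1 : Ψ v ⟨grad P' x, P', hP', rfl⟩ = 0 := by
      rw [hv]; rfl
    have h2 : Ψ v ⟨grad P' x, P', hP', rfl⟩ =
        ∑ j, ((v : Sup K n s) : Fin n → K) j * grad P' x j := rfl
    rw [h2, pair_eq hC.hm hP'.2 hvs, ← Lm_eq hC.hm hP'.2 hvs, hPv] at h1
    apply hxℓ
    rw [map_sum, ← h1]
    refine Finset.sum_congr rfl fun l _ => ?_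
    rw [map_mul, eval_C, eval_X]
  have hfin := LinearMap.finrank_le_finrank_of_injective hinj
  rw [Subspace.dual_finrank_eq, hCf] at hfin
  have := hC.h2
  omega

end Pool.Agent.X269.HG
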