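import Pool.Agent.X269.HG.Core3

/-!
The algebraic theorem.
-/

set_option autoImplicit false

namespace Pool.Agent.X269.HG

open MvPolynomial
open Pool.Agent.W467.Sym (grad cone)
open Pool.Agent.X269.CT (pderiv_comm' pderiv_high weight_of_lin lin_eq_coeff mem_of_cone)
open H503R3.QCI (NZD Reg)

variable {K : Type} [Field K] {n : ℕ}

theorem Phi_of_top {σ : Type} {ω : σ → ℕ} {k : ℕ} {T : MvPolynomial σ K} (h : Top ω k T T) :
    Phi ω T = Polynomial.C T * Polynomial.X ^ k := by
  classical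
  ext1 j
  rw [Phi_coeff, Polynomial.coeff_C_mul_X_pow]
  have h1 : IsWeightedHomogeneous ω T k := by
    rw [← h.comp_eq]
    exact weightedHomogeneousComponent_isWeightedHomogeneous k _
  rw [weightedHomogeneousComponent_of_mem h1]

variable {s i : ℕ} {B F : Fin i → MvPolynomial (Fin n) K}

theorem lift (hB : ∀ a, Top (om n s) 1 (B a) (B a)) (hF : ∀ a, Top (om n s) 1 (F a) (B a))
    {μ : MvPolynomial (Fin n) K} (hμ : μ ∈ Ideal.span (Set.range B)) (k : ℕ) :
    (Phi (om n s) μ).coeff k ∈ Ideal.span (Set.range B) ∧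
    ∃ G ∈ Ideal.span (Set.range F), Top (om n s) k G ((Phi (om n s) μ).coeff k) := by
  obtain ⟨h, rfl⟩ := Ideal.mem_span_range_iff_exists_fun.1 hμ
  have h1 : Phi (om n s) (∑ a, h a * B a) =
      ∑ a, Phi (om n s) (h a) * Polynomial.C (B a) * Polynomial.X := by
    rw [map_sum]
    refine Finset.sum_congr rfl fun a _ => ?_
    rw [map_mul, Phi_of_top (hB a), pow_one, mul_assoc]
  rcases k with _ | k
  · have h2 : (Phi (om n s) (∑ a, h a * B a)).coeff 0 = 0 := by
      rw [h1, Polynomial.finsetSum_coeff]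
      refine Finset.sum_eq_zero fun a _ => ?_
      rw [Polynomial.coeff_mul_X_zero]
    rw [h2]
    exact ⟨Ideal.zero_mem _, 0, Ideal.zero_mem _, Top.zero 0⟩
  · have h2 : (Phi (om n s) (∑ a, h a * B a)).coeff (k + 1) =
        ∑ a, weightedHomogeneousComponent (om n s) k (h a) * B a := by
      rw [h1, Polynomial.finsetSum_coeff]
      refine Finset.sum_congr rfl fun a _ => ?_
      rw [Polynomial.coeff_mul_X, Polynomial.coeff_mul_C, Phi_coeff]
    rw [h2]
    refine ⟨Ideal.sum_mem _ fun a _ => Ideal.mul_mem_left _ _ (Ideal.subset_span ⟨a, rfl⟩),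
      ∑ a, weightedHomogeneousComponent (om n s) k (h a) * F a,
      Ideal.sum_mem _ fun a _ => Ideal.mul_mem_left _ _ (Ideal.subset_span ⟨a, rfl⟩), ?_⟩
    exact Top.sum _ fun a _ => (Top.comp k (h a)).mul (hF a)

theorem top_mem [CharZero K] (hB : BilFam s i B) (hF : ∀ a, Top (om n s) 1 (F a) (B a))
    {J : Ideal (MvPolynomial (Fin n) K)} (hFJ : ∀ a, F a ∈ J)
    (hmin : ∀ G ∈ J, ∀ c : Fin i ⊕ Unit → Fin n, (∀ b, s ≤ (c b).1) →
      Matrix.det (Matrix.of fun b a => pderiv (c b) (Sum.elim F (fun _ => G) a)) ∈ J)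
    (hvan : ∀ G ∈ J, ∀ w : Fin n → K, (∀ k, s ≤ k.1 → w k = 0) → eval w G = 0)
    (hsat : ∀ T : MvPolynomial (Fin n) K, (∀ q : Fin i → Fin n, (∀ b, s ≤ (q b).1) →
      ∃ N : ℕ, (MM B q).det ^ N * T ∈ Ideal.span (Set.range B)) →
      T ∈ Ideal.span (Set.range B))
    {G T : MvPolynomial (Fin n) K} (hG : G ∈ J) {k : ℕ} (hT : Top (om n s) k G T) :
    T ∈ Ideal.span (Set.range B) := by
  have hFJ' : Ideal.span (Set.range F) ≤ J := by
    rw [Ideal.span_le]
    rintro _ ⟨a, rfl⟩
    exact hFJ a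
  apply hsat
  intro q hq
  by_cases hδ : (MM B q).det = 0
  · exact ⟨1, by rw [hδ, pow_one, zero_mul]; exact Ideal.zero_mem _⟩
  obtain ⟨N, T', hT', hN⟩ := reduce hB hq T
  refine ⟨N, ?_⟩
  have hδtop := (hB.det_top hq).pow N
  set δ := (MM B q).det with hδdef
  obtain ⟨h1, Gμ, hGμ, h2⟩ := lift hB.top hF hN (i * N + k)
  have h3 : Top (om n s) (i * N + k) (δ ^ N * G) (δ ^ N * T) := hδtop.mul hT
  have h4 : (Phi (om n s) (δ ^ N * T - T')).coeff (i * N + k) =
      δ ^ N * T - weightedHomogeneousComponent (om n s) (i * N + k) T' := by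
    rw [map_sub, Polynomial.coeff_sub, Phi_coeff, Phi_coeff, h3.idem.comp_eq]
  rw [h4] at h1 h2
  have h5 := h3.sub h2
  rw [sub_sub_cancel] at h5
  have h6 := lemmaA hB hF J hmin (hw_of hvan) hq hδ _
    (weightedHomogeneousComponent (om n s) (i * N + k) T') le_rfl (by
      rintro _ ⟨b, rfl⟩
      rw [← comp_pderiv _ (om_zero (hq b)), hT' _ ⟨b, rfl⟩, map_zero]) 1 one_ne_zero (one_mem _)
      (i * N + k) (δ ^ N * G - Gμ) (J.sub_mem (J.mul_mem_left _ hG) (hFJ' hGμ)) (by
      rw [one_mul]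
      exact h5)
  rw [h6, sub_zero] at h1
  exact h1

theorem descend [CharZero K] (hB : BilFam s i B) (hF : ∀ a, Top (om n s) 1 (F a) (B a))
    {J : Ideal (MvPolynomial (Fin n) K)} (hFJ : ∀ a, F a ∈ J)
    (hmin : ∀ G ∈ J, ∀ c : Fin i ⊕ Unit → Fin n, (∀ b, s ≤ (c b).1) →
      Matrix.det (Matrix.of fun b a => pderiv (c b) (Sum.elim F (fun _ => G) a)) ∈ J)
    (hvan : ∀ G ∈ J, ∀ w : Fin n → K, (∀ k, s ≤ k.1 → w k = 0) → eval w G = 0)
    (hsat : ∀ T : MvPolynomial (Fin n) K, (∀ q : Fin i → Fin n, (∀ b, s ≤ (q b).1) →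
      ∃ N : ℕ, (MM B q).det ^ N * T ∈ Ideal.span (Set.range B)) →
      T ∈ Ideal.span (Set.range B)) (k : ℕ) :
    ∀ G ∈ J, ∀ T, Top (om n s) k G T → G ∈ Ideal.span (Set.range F) := by
  have hFJ' : Ideal.span (Set.range F) ≤ J := by
    rw [Ideal.span_le]
    rintro _ ⟨a, rfl⟩
    exact hFJ a
  induction k with
  | zero =>
    intro G hG T hT
    have h1 := top_mem hB hF hFJ hmin hvan hsat hG hT
    obtain ⟨-, Gμ, hGμ, h2⟩ := lift hB.top hF h1 0
    have h3 : (Phi (om n s) T).coeff 0 = T := by rw [Phi_coeff, hT.idem.comp_eq]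
    rw [h3] at h2
    have h4 := hT.sub h2
    rw [sub_self] at h4
    have h5 : G - Gμ = 0 := by
      apply Phi_injective (om n s)
      rw [Polynomial.eq_C_of_natDegree_le_zero h4.1, h4.2, map_zero]
    rw [sub_eq_zero] at h5
    rw [h5]
    exact hGμ
  | succ k ih =>
    intro G hG T hT
    have h1 := top_mem hB hF hFJ hmin hvan hsat hG hT
    obtain ⟨-, Gμ, hGμ, h2⟩ := lift hB.top hF h1 (k + 1)
    have h3 : (Phi (om n s) T).coeff (k + 1) = T := by rw [Phi_coeff, hT.idem.comp_eq]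
    rw [h3] at h2
    have h4 := hT.sub h2
    rw [sub_self] at h4
    have h5 := ih (G - Gμ) (J.sub_mem hG (hFJ' hGμ)) _ h4.lower
    have h6 := Ideal.add_mem _ h5 hGμ
    rwa [sub_add_cancel] at h6

variable {m ρ : ℕ} {J : Ideal (MvPolynomial (Fin n) K)}

/-- The algebraic theorem. -/
theorem Core.main [IsAlgClosed K] [CharZero K] (hC : Core s m ρ J) :
    ∃ F : Fin ρ → MvPolynomial (Fin n) K, (∀ a, F a ∈ Low s m J) ∧
      J = Ideal.span (Set.range F) := by
  classical
  have hsn := hC.hsn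
  have h2ρ := hC.h2
  obtain ⟨F, hF, hind⟩ : ∃ F : Fin ρ → MvPolynomial (Fin n) K, (∀ a, F a ∈ Low s m J) ∧
      ∀ w : Fin n → K, w ≠ 0 → (∀ k, s ≤ k.1 → w k = 0) → ∀ c : Fin ρ → K,
        ∑ a, c a • Lm s (F a) w = 0 → c = 0 := by
    rcases Nat.eq_zero_or_pos ρ with h0 | h0
    · subst h0
      exact ⟨fun a => a.elim0, fun a => a.elim0, fun w _ _ c _ => Subsingleton.elim _ _⟩
    · set w1 : Fin n → K := Pi.single ⟨0, by omega⟩ 1 with hw1
      have hw10 : w1 ≠ 0 := by
        intro h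
        have := congrFun h ⟨0, by omega⟩
        rw [hw1, Pi.single_eq_same] at this
        exact one_ne_zero this
      have hw1s : ∀ k : Fin n, s ≤ k.1 → w1 k = 0 := by
        intro k hk
        rw [hw1, Pi.single_eq_of_ne]
        rintro rfl
        change s ≤ 0 at hk
        omega
      obtain ⟨f, hf⟩ := exists_linearIndependent_of_le_finrank (R := K) (hC.rk' hw10 hw1s)
      have h1 : ∀ a, ∃ P ∈ Low s m J, grad P w1 = (f a : Fin n → K) := by
        intro a
        obtain ⟨P, hP, hPa⟩ := (f a).2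
        exact ⟨P, hP, hPa⟩
      choose F hF hFf using h1
      have hf2 : LinearIndependent K (fun a => ((f a : (Low s m J).map (gradL w1)) :
          Fin n → K)) :=
        hf.map' ((Low s m J).map (gradL w1)).subtype (Submodule.ker_subtype _)
      refine ⟨F, hF, fun w hw0 hw c hc => ?_⟩
      set P : MvPolynomial (Fin n) K := ∑ a, c a • F a with hP
      have hPL : P ∈ Low s m J := Submodule.sum_mem _ fun a _ => Submodule.smul_mem _ _ (hF a)
      have hgr : ∀ v : Fin n → K, (∀ k, s ≤ k.1 → v k = 0) →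
          Lm s P v = ∑ a, c a • Lm s (F a) v := by
        intro v hv
        rw [← Lm_eq hC.hm hPL.2 hv, ← gradL_apply, hP, map_sum]
        refine Finset.sum_congr rfl fun a _ => ?_
        rw [map_smul, gradL_apply, Lm_eq hC.hm (hF a).2 hv]
      have h2 := hC.unif hPL hw0 hw (by rw [hgr w hw, hc]) hw1s
      rw [hgr w1 hw1s] at h2
      rw [Fintype.linearIndependent_iff] at hf2
      funext a
      refine hf2 c ?_ a
      rw [← h2]
      refine Finset.sum_congr rfl fun a _ => ?_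
      rw [← hFf, Lm_eq hC.hm (hF a).2 hw1s]
  refine ⟨F, hF, ?_⟩
  have hB : BilFam s ρ (fun a => BB s (F a)) :=
    { top := fun a => BB_self hC.hm (hF a).2
      lin := fun a l hl => BB_lin hC.hm (hF a).2 hl
      van := fun a x hx => BB_van hC.hm (hF a).2 hx
      hom := fun a => BB_hom hC.hm (hF a).2
      ind := by
        intro w hw0 hw c hc
        apply hind w hw0 hw c
        funext l
        rw [Finset.sum_apply, Pi.zero_apply]
        by_cases hl : l.1 < s
        · refine Finset.sum_eq_zero fun a _ => ?_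
          have : Lm s (F a) w l = 0 := by
            show ∑ j, w j * GG s (F a) j l = 0
            refine Finset.sum_eq_zero fun j _ => ?_
            rw [GG, if_neg (by omega), mul_zero]
          rw [Pi.smul_apply, this, smul_zero]
        · rw [← hc l (by omega)]
          refine Finset.sum_congr rfl fun a _ => ?_
          rw [BB_eval hC.hm (hF a).2 (by omega) hw]
          rfl }
  have hFt : ∀ a, Top (om n s) 1 (F a) (BB s (F a)) := fun a => BB_top hC.hm (hF a).2
  have hmin : ∀ G ∈ J, ∀ c : Fin ρ ⊕ Unit → Fin n, (∀ b, s ≤ (c b).1) →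
      Matrix.det (Matrix.of fun b a => pderiv (c b) (Sum.elim F (fun _ => G) a)) ∈ J := by
    intro G hG c _
    refine hC.jac (Sum.elim F (fun _ => G)) ?_ c
    rintro (a | a)
    · exact (hF a).1
    · exact hG
  have hsat : ∀ T : MvPolynomial (Fin n) K, (∀ q : Fin ρ → Fin n, (∀ b, s ≤ (q b).1) →
      ∃ N : ℕ, (MM (fun a => BB s (F a)) q).det ^ N * T ∈
        Ideal.span (Set.range fun a => BB s (F a))) →
      T ∈ Ideal.span (Set.range fun a => BB s (F a)) := by
    intro T hT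
    rcases Nat.eq_zero_or_pos ρ with h0 | h0
    · subst h0
      obtain ⟨N, hN⟩ := hT (fun b => b.elim0) (fun b => b.elim0)
      rwa [Matrix.det_isEmpty, one_pow, one_mul] at hN
    · exact sat hB hsn (by omega) (BilFam.reg hsn ρ _ hB (by omega)) T hT
  apply le_antisymm
  · intro G hG
    obtain ⟨k, hk⟩ := Top.exists (ω := om n s) G
    exact descend hB hFt (fun a => (hF a).1) hmin hC.van hsat k G hG _ hk
  · rw [Ideal.span_le]
    rintro _ ⟨a, rfl⟩
    exact (hF a).1

end Pool.Agent.X269.HG
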