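import Pool.Agent.X269.HG.Bil
import Pool.Agent.Y204.LF.Unmixed
import Pool.Agent.TH130.CI.Cz

/-!
Families of bilinear forms of maximal rank are regular sequences.
-/

set_option autoImplicit false

namespace Pool.Agent.X269.HG

open MvPolynomial
open H503R3.QCI (NZD Reg)

variable {K : Type} [Field K]

section ker

variable {σ : Type}

theorem ker_support [CharZero K] {L : Set σ} {f : MvPolynomial σ K} (hf : f ∈ ker K L)
    {d : σ →₀ ℕ} (hd : coeff d f ≠ 0) {l : σ} (hl : l ∈ L) : d l = 0 := by
  classical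
  by_contra h
  have h1 := congrArg (coeff (d - Finsupp.single l 1)) (hf l hl)
  rw [coeff_pderiv, coeff_zero] at h1
  have h2 : d - Finsupp.single l 1 + Finsupp.single l 1 = d := by
    apply tsub_add_cancel_of_le
    rw [Finsupp.single_le_iff]
    omega
  rw [h2] at h1
  rcases mul_eq_zero.1 h1 with h3 | h3
  · exact hd h3
  · exact Nat.cast_add_one_ne_zero _ h3

theorem eval_ker [CharZero K] [Fintype σ] {L : Set σ} {f : MvPolynomial σ K} (hf : f ∈ ker K L)
    {x y : σ → K} (hxy : ∀ k, k ∉ L → x k = y k) : eval x f = eval y f := by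
  rw [eval_eq', eval_eq']
  refine Finset.sum_congr rfl fun d hd => ?_
  congr 1
  refine Finset.prod_congr rfl fun k _ => ?_
  by_cases hk : k ∈ L
  · rw [ker_support hf (mem_support_iff.1 hd) hk, pow_zero, pow_zero]
  · rw [hxy k hk]

end ker

variable {n s i : ℕ}

/-- the point supported on the first `s` variables -/
def cut (s : ℕ) (x : Fin n → K) : Fin n → K := fun k => if k.1 < s then x k else 0

theorem cut_zero {x : Fin n → K} {k : Fin n} (hk : s ≤ k.1) : cut s x k = 0 :=
  if_neg (by omega)

theorem cut_of {x : Fin n → K} {k : Fin n} (hk : k.1 < s) : cut s x k = x k := if_pos hk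

theorem cut_eq {x : Fin n → K} (hx : ∀ k, s ≤ k.1 → x k = 0) : cut s x = x := by
  funext k
  by_cases h : k.1 < s
  · exact cut_of h
  · rw [cut_zero (by omega), hx k (by omega)]

theorem eval_cut [CharZero K] {f : MvPolynomial (Fin n) K} (hf : f ∈ ker K (TT n s))
    (x : Fin n → K) : eval (cut s x) f = eval x f := by
  apply eval_ker hf
  intro k hk
  apply cut_of
  by_contra h
  exact hk (show s ≤ k.1 by omega)

/-- components of polynomials vanishing at the points supported on the first `s` variables -/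
theorem comp_van [CharZero K] {G : MvPolynomial (Fin n) K}
    (hG : ∀ w : Fin n → K, (∀ k, s ≤ k.1 → w k = 0) → eval w G = 0) (k : ℕ) (w : Fin n → K)
    (hw : ∀ k, s ≤ k.1 → w k = 0) : eval w ((Phi (om n s) G).coeff k) = 0 := by
  have h1 : (Phi (om n s) G).map (eval w) = 0 := by
    apply Polynomial.funext
    intro t
    rw [Polynomial.eval_zero, Polynomial.eval_map]
    have h2 : Polynomial.eval₂ (eval w) t (Phi (om n s) G) =
        eval (fun k => t * w k) G := by
      have : ((Polynomial.eval₂RingHom (eval w) t).comp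
          (Phi (K := K) (om n s)).toRingHom) = eval (fun k => t * w k) := by
        apply MvPolynomial.ringHom_ext
        · intro c
          simp [Phi]
        · intro k
          rw [RingHom.comp_apply, AlgHom.toRingHom_eq_coe, RingHom.coe_coe, Phi_X, map_mul, map_pow]
          simp only [Polynomial.coe_eval₂RingHom, Polynomial.eval₂_C, Polynomial.eval₂_X, eval_X]
          by_cases hk : k.1 < s
          · rw [om, if_pos hk, pow_one, mul_comm]
          · rw [hw k (by omega), zero_mul, mul_zero]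
      exact congrArg (fun φ => φ G) this
    rw [h2]
    exact hG _ fun k hk => by rw [hw k hk, mul_zero]
  have h2 := congrArg (fun p => Polynomial.coeff p k) h1
  simpa using h2

theorem hw_of [CharZero K] {J : Ideal (MvPolynomial (Fin n) K)}
    (hJ : ∀ G ∈ J, ∀ w : Fin n → K, (∀ k, s ≤ k.1 → w k = 0) → eval w G = 0) :
    ∀ G ∈ J, ∀ k c, Top (om n s) k G c → c ∈ ker K (TT n s) → c = 0 := by
  intro G hG k c hc hck
  apply MvPolynomial.funext
  intro x
  rw [map_zero, ← eval_cut hck, ← hc.2]
  exact comp_van (hJ G hG) k _ fun k hk => cut_zero hk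

theorem det_eq_zero_of_mulVec {R : Type*} [CommRing R] {ι : Type*} [Fintype ι] [DecidableEq ι]
    (M : Matrix ι ι R) (v : ι → R) (h : M.mulVec v = 0) (j : ι) (hv : IsUnit (v j)) :
    M.det = 0 := by
  have h1 : M.adjugate.mulVec (M.mulVec v) = M.det • v := by
    rw [Matrix.mulVec_mulVec, Matrix.adjugate_mul, Matrix.smul_mulVec, Matrix.one_mulVec]
  rw [h, Matrix.mulVec_zero] at h1
  have h2 := congrFun h1 j
  rw [Pi.zero_apply, Pi.smul_apply, smul_eq_mul] at h2
  exact (hv.mul_left_eq_zero).1 h2.symm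

/-- the minors of elements of the ideal -/
theorem hmin_of (B : Fin i → MvPolynomial (Fin n) K) :
    ∀ G ∈ Ideal.span (Set.range B), ∀ c : Fin i ⊕ Unit → Fin n, (∀ b, s ≤ (c b).1) →
      Matrix.det (Matrix.of fun b a => pderiv (c b) (Sum.elim B (fun _ => G) a)) ∈
        Ideal.span (Set.range B) := by
  classical
  intro G hG c _
  set Q := Ideal.span (Set.range B) with hQ
  obtain ⟨h, rfl⟩ := Ideal.mem_span_range_iff_exists_fun.1 hG
  rw [← Ideal.Quotient.eq_zero_iff_mem, RingHom.map_det]
  apply det_eq_zero_of_mulVec _ (fun a => Ideal.Quotient.mk Q (Sum.elim h (fun _ => -1) a)) ?_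
    (Sum.inr ()) (by
      simp only [Sum.elim_inr]
      have h2 : Ideal.Quotient.mk Q (-1) = -1 := by rw [map_neg, map_one]
      rw [h2]
      exact (isUnit_one (M := MvPolynomial (Fin n) K ⧸ Q)).neg)
  funext b
  have hB : ∀ a, Ideal.Quotient.mk Q (B a) = 0 := fun a =>
    Ideal.Quotient.eq_zero_iff_mem.2 (Ideal.subset_span ⟨a, rfl⟩)
  simp only [Matrix.mulVec, dotProduct, RingHom.mapMatrix_apply, Matrix.map_apply,
    Matrix.of_apply, Fintype.sum_sum_type, Sum.elim_inl, Sum.elim_inr, Finset.univ_unique,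
    Finset.sum_singleton, map_neg, map_one, mul_neg, mul_one, map_sum, Derivation.leibniz,
    smul_eq_mul, map_add, map_mul, hB, zero_mul, add_zero, Pi.zero_apply]
  have h3 : ∀ x, Ideal.Quotient.mk Q (pderiv (c b) (B x)) * Ideal.Quotient.mk Q (h x) =
      Ideal.Quotient.mk Q (h x) * Ideal.Quotient.mk Q (pderiv (c b) (B x)) := fun x => mul_comm _ _
  simp only [h3]
  ring

theorem Phi_injective {σ : Type} (ω : σ → ℕ) {G : MvPolynomial σ K} (h : Phi ω G = 0) : G = 0 := by
  have : (Polynomial.evalRingHom (1 : MvPolynomial σ K)).comp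
      (Phi (K := K) ω).toRingHom = RingHom.id _ := by
    apply MvPolynomial.ringHom_ext
    · intro c
      simp [Phi, MvPolynomial.algebraMap_eq, Polynomial.algebraMap_apply]
    · intro k
      rw [RingHom.comp_apply, AlgHom.toRingHom_eq_coe, RingHom.coe_coe, Phi_X, map_mul, map_pow]
      simp
  have h1 := congrArg (fun φ => φ G) this
  simp only [RingHom.comp_apply, AlgHom.toRingHom_eq_coe, RingHom.coe_coe, h, map_zero,
    RingHom.id_apply] at h1
  exact h1.symm

variable {B : Fin i → MvPolynomial (Fin n) K}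

theorem BilFam.span_van (hB : BilFam s i B) : ∀ G ∈ Ideal.span (Set.range B), ∀ w : Fin n → K,
    (∀ k, s ≤ k.1 → w k = 0) → eval w G = 0 := by
  intro G hG w hw
  obtain ⟨h, rfl⟩ := Ideal.mem_span_range_iff_exists_fun.1 hG
  rw [map_sum]
  exact Finset.sum_eq_zero fun a _ => by rw [map_mul, hB.van a w hw, mul_zero]

/-- an element of the ideal without the variables `q` is zero -/
theorem ker_span [CharZero K] (hB : BilFam s i B) {q : Fin i → Fin n} (hq : ∀ b, s ≤ (q b).1)
    (hδ : (MM B q).det ≠ 0) {g : MvPolynomial (Fin n) K} (hg : g ∈ Ideal.span (Set.range B))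
    (hgk : g ∈ ker K (Set.range q)) : g = 0 := by
  by_contra h0
  have h1 : Phi (om n s) g ≠ 0 := fun h => h0 (Phi_injective _ h)
  have h2 : (Phi (om n s) g).coeff (Phi (om n s) g).natDegree ≠ 0 := by
    rw [Polynomial.coeff_natDegree]
    exact Polynomial.leadingCoeff_ne_zero.2 h1
  apply h2
  refine lemmaA hB hB.top (Ideal.span (Set.range B)) (hmin_of B) (hw_of hB.span_van) hq hδ _ _
    le_rfl ?_ 1 one_ne_zero (one_mem _) (Phi (om n s) g).natDegree g hg ?_
  · rintro _ ⟨b, rfl⟩
    rw [Phi_coeff, ← comp_pderiv _ (om_zero (hq b)), hgk _ ⟨b, rfl⟩, map_zero]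
  · rw [one_mul]
    exact ⟨le_rfl, rfl⟩

/-- saturation with respect to the minors -/
theorem sat [IsAlgClosed K] [CharZero K] (hB : BilFam s i B) (hsn : s ≤ n) (his : i < s)
    (hreg : Reg B) (T : MvPolynomial (Fin n) K)
    (hT : ∀ q : Fin i → Fin n, (∀ b, s ≤ (q b).1) →
      ∃ N : ℕ, (MM B q).det ^ N * T ∈ Ideal.span (Set.range B)) :
    T ∈ Ideal.span (Set.range B) := by
  classical
  set Q := Ideal.span (Set.range B) with hQ
  set 𝔞 : Ideal (MvPolynomial (Fin n) K) :=
    { carrier := {g | g * T ∈ Q}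
      add_mem' := by
        intro a b ha hb
        simp only [Set.mem_ofPred_eq] at ha hb ⊢
        rw [add_mul]
        exact Q.add_mem ha hb
      zero_mem' := by
        simp
      smul_mem' := by
        intro c x hx
        simp only [Set.mem_ofPred_eq] at hx ⊢
        rw [smul_eq_mul, mul_assoc]
        exact Q.mul_mem_left _ hx } with h𝔞
  have hmem : ∀ g, g ∈ 𝔞 ↔ g * T ∈ Q := fun g => Iff.rfl
  set 𝔟 : Ideal (MvPolynomial (Fin n) K) :=
    Ideal.span {g | ∃ q : Fin i → Fin n, (∀ b, s ≤ (q b).1) ∧ g = (MM B q).det} with h𝔟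
  have h1 : 𝔟 ≤ 𝔞.radical := by
    rw [h𝔟, Ideal.span_le]
    rintro _ ⟨q, hq, rfl⟩
    obtain ⟨N, hN⟩ := hT q hq
    exact ⟨N, hN⟩
  have h2 : ∀ j : Fin n, j.1 < s → (X j : MvPolynomial (Fin n) K) ∈ 𝔟.radical := by
    intro j hj
    rw [← MvPolynomial.vanishingIdeal_zeroLocus_eq_radical (K := K) 𝔟,
      MvPolynomial.mem_vanishingIdeal_iff]
    intro x hx
    rw [aeval_eq_eval]
    show eval x (X j) = 0
    rw [eval_X]
    by_contra hxj
    obtain ⟨c, hc⟩ := exists_det_ne_zero
      (fun (a : Fin i) (l : {l : Fin n // s ≤ l.1}) => eval (cut s x) (pderiv l.1 (B a))) (by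
        intro p hp
        refine hB.ind (cut s x) ?_ (fun k hk => cut_zero hk) p fun l hl => hp ⟨l, hl⟩
        intro h
        apply hxj
        rw [← cut_of hj (x := x), h, Pi.zero_apply])
    apply hc
    have h3 : aeval x (MM B (fun b => (c b).1)).det = 0 :=
      (MvPolynomial.mem_zeroLocus_iff.1 hx) _ (Ideal.subset_span ⟨_, fun b => (c b).2, rfl⟩)
    rw [aeval_eq_eval] at h3
    have h4 : eval x (MM B (fun b => (c b).1)).det = 0 := h3
    rw [RingHom.map_det] at h4
    rw [← h4]
    congr 1
    ext b a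
    simp only [Matrix.of_apply, RingHom.mapMatrix_apply, Matrix.map_apply, MM]
    exact eval_cut (hB.lin a _ (c b).2) x
  have h3 : ∀ j : Fin n, ∃ κ : ℕ, j.1 < s → X j ^ κ * T ∈ Q := by
    intro j
    by_cases hj : j.1 < s
    · have h4 : (X j : MvPolynomial (Fin n) K) ∈ 𝔞.radical := by
        have := Ideal.radical_mono h1 (h2 j hj)
        rwa [Ideal.radical_idem] at this
      obtain ⟨κ, hκ⟩ := h4
      exact ⟨κ, fun _ => hκ⟩
    · exact ⟨0, fun h => absurd h hj⟩
  choose κ hκ using h3
  have h4 : Reg (fun j : Fin n => (X j ^ (κ j + 1) : MvPolynomial (Fin n) K)) := by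
    apply TH130CI.reg_of_common_zero _ (fun j => κ j + 1) (fun j => by omega)
      (fun j => isHomogeneous_X_pow _ _)
    intro x hx
    funext j
    have := hx j
    rw [map_pow, eval_X] at this
    exact pow_eq_zero_iff (by omega) |>.1 this
  have h5 := Pool.Agent.Y204.LF.reg_prefix hsn h4
  refine Pool.Agent.Y204.LF.no_kill hsn his (fun j => isHomogeneous_X_pow _ _) (fun j => by omega)
    h5 (fun a => hB.hom a) (fun a => by omega) hreg fun j => ?_
  show X (Fin.castLE hsn j) ^ (κ (Fin.castLE hsn j) + 1) * T ∈ Q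
  rw [pow_succ, mul_assoc, mul_comm (X (Fin.castLE hsn j)) T, ← mul_assoc]
  exact Q.mul_mem_right _ (hκ (Fin.castLE hsn j) (by simp))

theorem BilFam.initial (hB : BilFam s i B) {i' : ℕ} (h : i' ≤ i) :
    BilFam s i' (fun j => B (Fin.castLE h j)) := by
  classical
  refine ⟨fun a => hB.top _, fun a => hB.lin _, fun a => hB.van _, fun a => hB.hom _, ?_⟩
  intro w hw0 hw c hc
  have h1 := hB.ind w hw0 hw (fun a => if h' : a.1 < i' then c ⟨a.1, h'⟩ else 0) (by
    intro l hl
    refine Eq.trans ?_ (hc l hl)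
    rw [← Finset.sum_subset (s₁ := Finset.univ.map (Fin.castLEEmb h)) (Finset.subset_univ _)]
    · rw [Finset.sum_map]
      refine Finset.sum_congr rfl fun j _ => ?_
      simp
    · intro a _ ha
      rw [dif_neg, zero_mul]
      intro h'
      apply ha
      rw [Finset.mem_map]
      exact ⟨⟨a.1, h'⟩, Finset.mem_univ _, rfl⟩)
  funext j
  have h2 := congrFun h1 (Fin.castLE h j)
  simpa using h2

/-- families of bilinear forms of maximal rank are regular sequences -/
theorem BilFam.reg [IsAlgClosed K] [CharZero K] (hsn : s ≤ n) (i : ℕ) :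
    ∀ (B : Fin i → MvPolynomial (Fin n) K), BilFam s i B → i ≤ s → Reg B := by
  classical
  induction i using Nat.strong_induction_on with
  | _ i ih =>
  intro B hB his a
  set i' := a.1 with hi'
  have hi'i : i' < i := a.2
  set B' : Fin i' → MvPolynomial (Fin n) K := fun j => B (Fin.castLE hi'i.le j) with hB'
  have hBf : BilFam s i' B' := hB.initial hi'i.le
  have hreg := ih i' hi'i B' hBf (by omega)
  have hspan : Ideal.span (B '' {j | j < a}) = Ideal.span (Set.range B') := by
    congr 1
    ext x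
    constructor
    · rintro ⟨j, hj, rfl⟩
      exact ⟨⟨j.1, hj⟩, rfl⟩
    · rintro ⟨j, rfl⟩
      exact ⟨Fin.castLE hi'i.le j, j.2, rfl⟩
  rw [hspan]
  intro H hH
  apply sat hBf hsn (by omega) hreg
  intro q hq
  by_cases hδ : (MM B' q).det = 0
  · exact ⟨1, by rw [hδ, pow_one, zero_mul]; exact Ideal.zero_mem _⟩
  obtain ⟨N, H', hH', hN⟩ := reduce hBf hq H
  obtain ⟨N', f', hf', hN'⟩ := reduce hBf hq (B a)
  set δ := (MM B' q).det with hδdef
  have h1 : f' * H' ∈ Ideal.span (Set.range B') := by
    have : f' * H' = δ ^ (N + N') * (B a * H) - (δ ^ N' * B a) * (δ ^ N * H - H') -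
        H' * (δ ^ N' * B a - f') := by
      rw [pow_add]; ring
    rw [this]
    exact Ideal.sub_mem _ (Ideal.sub_mem _ (Ideal.mul_mem_left _ _ hH)
      (Ideal.mul_mem_left _ _ hN)) (Ideal.mul_mem_left _ _ hN')
  have h2 := ker_span hBf hq hδ h1 (mul_mem hf' hH')
  rcases mul_eq_zero.1 h2 with h3 | h3
  · -- impossible
    exfalso
    rw [h3, sub_zero] at hN'
    set k₀ : Fin n := ⟨0, by omega⟩ with hk₀
    obtain ⟨x, hx⟩ : ∃ x : Fin n → K, eval x (δ * X k₀) ≠ 0 := by
      by_contra h
      push Not at h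
      have h4 : δ * X k₀ = 0 := MvPolynomial.funext fun x => by rw [h x, map_zero]
      rcases mul_eq_zero.1 h4 with h5 | h5
      · exact hδ h5
      · exact X_ne_zero _ h5
    rw [map_mul, eval_X] at hx
    obtain ⟨hx1, hx2⟩ := mul_ne_zero_iff.1 hx
    have hwδ : eval (cut s x) δ ≠ 0 := by
      rw [eval_cut (hBf.det_mem hq)]
      exact hx1
    have hw0 : cut s x ≠ 0 := by
      intro h
      apply hx2
      rw [← cut_of (s := s) (x := x) (k := k₀) (by show 0 < s; omega), h,
        Pi.zero_apply]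
    obtain ⟨h, hh⟩ := Ideal.mem_span_range_iff_exists_fun.1 hN'
    have h6 := hB.ind (cut s x) hw0 (fun k hk => cut_zero hk)
      (fun b => if h' : b.1 < i' then eval (cut s x) (h ⟨b.1, h'⟩)
        else if b = a then - eval (cut s x) δ ^ N' else 0) (by
      intro l hl
      have h7 := congrArg (fun F => eval (cut s x) (pderiv l F)) hh
      simp only [map_sum, Derivation.leibniz, map_add, smul_eq_mul, map_mul, map_pow] at h7
      rw [hB.van a _ fun k hk => cut_zero hk, zero_mul, add_zero] at h7
      have h8 : ∀ j, eval (cut s x) (B' j) = 0 := fun j => hBf.van j _ fun k hk => cut_zero hk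
      simp only [h8, zero_mul, add_zero] at h7
      have ha : a ∉ Finset.univ.map (Fin.castLEEmb hi'i.le) := by
        intro h
        rw [Finset.mem_map] at h
        obtain ⟨j, -, hj⟩ := h
        have h9 := congrArg Fin.val hj
        simp only [Fin.castLEEmb_apply, Fin.val_castLE] at h9
        have := j.2
        omega
      rw [← Finset.sum_subset (s₁ := insert a (Finset.univ.map (Fin.castLEEmb hi'i.le)))
        (Finset.subset_univ _)]
      · rw [Finset.sum_insert ha, Finset.sum_map, dif_neg (by omega), if_pos rfl]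
        simp only [Fin.castLEEmb_apply, Fin.val_castLE, Fin.is_lt, dite_true, Fin.eta]
        rw [h7]
        ring
      · intro b _ hb
        rw [Finset.mem_insert, not_or] at hb
        rw [dif_neg, if_neg hb.1, zero_mul]
        intro h'
        apply hb.2
        rw [Finset.mem_map]
        exact ⟨⟨b.1, h'⟩, Finset.mem_univ _, rfl⟩)
    have h7 := congrFun h6 a
    rw [dif_neg (by omega), if_pos rfl, Pi.zero_apply, neg_eq_zero] at h7
    exact hwδ (eq_zero_of_pow_eq_zero h7)
  · rw [h3, sub_zero] at hN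
    exact ⟨N, hN⟩

end Pool.Agent.X269.HG
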