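import Pool.Agent.X269.HG.Core4
import Pool.Agent.X269.CT.Main2

/-!
Smooth varieties which come from a weighted projective space with the weights `m` and `1`.
-/

set_option autoImplicit false

namespace Pool.Agent.X269.HG

open MvPolynomial Pool.Agent.W467.Sym
open Pool.Agent.X269.CT (pderiv_high weight_of_lin lin_eq_coeff mem_of_cone eval_zero_of_weight)

variable {K : Type} [Field K] {V U E : Type} [Fintype V] [Fintype U] [Fintype E]

/-- `I` is the homogeneous ideal of a smooth variety of codimension `card E + ρ` which comes from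
the weighted projective space with the coordinates `ge`, `gen`, and on which the coordinates `ge`
vanish. -/
structure SetR (m ρ : ℕ) (ge : E → MvPolynomial V K) (gen : U → MvPolynomial V K) (wgt : U → ℕ)
    (disc : MvPolynomial V K) (I : Ideal (MvPolynomial V K)) : Prop where
  hm : 2 ≤ m
  w01 : ∀ k, wgt k = m ∨ wgt k = 1
  gen_hom : ∀ k, (gen k).IsHomogeneous (wgt k)
  ge_mem : ∀ k, ge k ∈ I
  ge_hom : ∀ k, ∃ d, (d = 1 ∨ d = m) ∧ (ge k).IsHomogeneous d
  disc_ind : ∀ x, eval x disc ≠ 0 →
    LinearIndependent K (Sum.elim (fun k => grad (ge k) x) (fun k => grad (gen k) x))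
  disc_zero : eval 0 disc = 0
  prime : I.IsPrime
  hom : ∀ F ∈ I, ∀ d, homogeneousComponent d F ∈ I
  smooth : ∀ x ∈ cone I, x ≠ 0 → Module.finrank K (conormal I x) = Fintype.card E + ρ
  disc_not : disc ∉ I
  span : I = Ideal.span (Set.range ge ∪ {F | F ∈ I ∧ ∃ P : MvPolynomial U K, aeval gen P = F})
  pts : ∀ w : U → K, w ≠ 0 → (∀ k, wgt k = 1 → w k = 0) → ∃ z : V → K, z ≠ 0 ∧
    (∀ k, eval z (ge k) = 0) ∧ (∀ k, eval z (gen k) = w k) ∧
    (z ∉ cone I → ∃ F ∈ I, F.totalDegree < 2 * m ∧ eval z F ≠ 0) ∧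
    (z ∈ cone I → conormal I z ≤
      Submodule.span K {ξ | ∃ F ∈ I, F.totalDegree < 2 * m ∧ ξ = grad F z})

variable {m ρ : ℕ} {ge : E → MvPolynomial V K} {gen : U → MvPolynomial V K} {wgt : U → ℕ}
  {disc : MvPolynomial V K} {I : Ideal (MvPolynomial V K)}

theorem SetR.pos (S : SetR m ρ ge gen wgt disc I) (k : U) : 0 < wgt k := by
  have := S.hm
  rcases S.w01 k with h | h <;> omega

theorem SetR.hom_of_wh (S : SetR m ρ ge gen wgt disc I) {P : MvPolynomial U K} {n : ℕ}
    (hP : IsWeightedHomogeneous wgt P n) : (aeval gen P).IsHomogeneous n := by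
  classical
  rw [P.as_sum, map_sum]
  refine IsHomogeneous.sum _ _ _ fun u hu => ?_
  have h1 : Finsupp.weight wgt u = n := hP (mem_support_iff.1 hu)
  rw [aeval_monomial, algebraMap_eq]
  have h2 : (u.prod fun i k => gen i ^ k).IsHomogeneous n := by
    rw [← h1, Finsupp.weight_apply, Finsupp.sum]
    unfold Finsupp.prod
    refine IsHomogeneous.prod _ _ _ fun i _ => ?_
    have := (S.gen_hom i).pow (u i)
    rwa [smul_eq_mul, mul_comm]
  have h3 := (isHomogeneous_C V (coeff u P)).mul h2
  rwa [zero_add] at h3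

theorem SetR.comp (S : SetR m ρ ge gen wgt disc I) (n : ℕ) (P : MvPolynomial U K) :
    homogeneousComponent n (aeval gen P) = aeval gen (weightedHomogeneousComponent wgt n P) := by
  classical
  induction P using MvPolynomial.induction_on' with
  | monomial u c =>
    have h1 : IsWeightedHomogeneous wgt (monomial u c) (Finsupp.weight wgt u) :=
      isWeightedHomogeneous_monomial _ _ _ rfl
    rw [weightedHomogeneousComponent_of_mem h1, homogeneousComponent_of_mem (S.hom_of_wh h1)]
    split_ifs
    · rfl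
    · rw [map_zero]
  | add p q hp hq => rw [map_add, map_add, hp, hq, map_add, map_add]

theorem SetR.comp_mem (S : SetR m ρ ge gen wgt disc I) {P : MvPolynomial U K}
    (hP : aeval gen P ∈ I) (n : ℕ) : aeval gen (weightedHomogeneousComponent wgt n P) ∈ I := by
  rw [← S.comp]
  exact S.hom _ hP n

/-- the Jacobian determinants -/
theorem SetR.jac_mem [IsAlgClosed K] (S : SetR m ρ ge gen wgt disc I)
    (P : Fin ρ ⊕ Unit → MvPolynomial U K)
    (hP : ∀ s, aeval gen (P s) ∈ I) (c : Fin ρ ⊕ Unit → U) :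
    aeval gen (Matrix.det (Matrix.of fun b a => pderiv (c b) (P a))) ∈ I := by
  classical
  have hI := S.prime
  have h1 : aeval gen (Matrix.det (Matrix.of fun b a => pderiv (c b) (P a))) * disc ∈ I := by
    apply mem_of_cone I
    intro x hx
    rw [map_mul]
    by_cases hxd : eval x disc = 0
    · rw [hxd, mul_zero]
    have hx0 : x ≠ 0 := by
      rintro rfl
      exact hxd S.disc_zero
    have hgen := S.disc_ind x hxd
    have hnot : ¬ LinearIndependent K (Sum.elim (fun k => grad (ge k) x)
        (fun s => grad (aeval gen (P s)) x)) := by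
      intro h
      have h2 := finrank_span_eq_card h
      have h3 : Submodule.span K (Set.range (Sum.elim (fun k => grad (ge k) x)
          (fun s => grad (aeval gen (P s)) x))) ≤ conormal I x := by
        rw [Submodule.span_le]
        rintro _ ⟨s | s, rfl⟩
        · exact Submodule.subset_span ⟨_, S.ge_mem s, rfl⟩
        · exact Submodule.subset_span ⟨_, hP s, rfl⟩
      have h4 := Submodule.finrank_mono h3
      rw [h2, S.smooth x hx hx0, Fintype.card_sum, Fintype.card_sum, Fintype.card_fin,
        Fintype.card_unit] at h4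
      omega
    rw [Fintype.not_linearIndependent_iff] at hnot
    obtain ⟨b, hb, s₀, hs₀⟩ := hnot
    have h5 : ∑ k, (Sum.elim (fun k => b (Sum.inl k)) (fun k => ∑ s, b (Sum.inr s) *
        eval (fun k => eval x (gen k)) (pderiv k (P s))) : E ⊕ U → K) k •
        (Sum.elim (fun k => grad (ge k) x) (fun k => grad (gen k) x) : E ⊕ U → V → K) k = 0 := by
      rw [← hb, Fintype.sum_sum_type, Fintype.sum_sum_type]
      simp only [Sum.elim_inl, Sum.elim_inr, grad_aeval, Finset.smul_sum, Finset.sum_smul]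
      congr 1
      rw [Finset.sum_comm]
      refine Finset.sum_congr rfl fun s _ => Finset.sum_congr rfl fun k _ => ?_
      rw [mul_smul]
    have h6 := Fintype.linearIndependent_iff.1 hgen _ h5
    have hdep : ∀ k, ∑ s, b (Sum.inr s) * eval (fun k => eval x (gen k)) (pderiv k (P s)) = 0 :=
      fun k => h6 (Sum.inr k)
    have hbE : ∀ k, b (Sum.inl k) = 0 := fun k => h6 (Sum.inl k)
    obtain ⟨s₀, hs₀⟩ : ∃ s, b (Sum.inr s) ≠ 0 := by
      rcases s₀ with s₀ | s₀
      · exact absurd (hbE s₀) hs₀
      · exact ⟨s₀, hs₀⟩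
    have hdet : eval x (aeval gen (Matrix.det (Matrix.of fun b a => pderiv (c b) (P a)))) = 0 := by
      rw [eval_aeval]
      rw [RingHom.map_det]
      apply Matrix.exists_mulVec_eq_zero_iff.1
      refine ⟨fun s => b (Sum.inr s), fun h => hs₀ (congrFun h s₀), ?_⟩
      ext t
      simp only [Matrix.mulVec, dotProduct, RingHom.mapMatrix_apply, Matrix.map_apply,
        Matrix.of_apply, Pi.zero_apply]
      rw [← hdep (c t)]
      refine Finset.sum_congr rfl fun s _ => mul_comm _ _
    rw [hdet, zero_mul]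
  exact (hI.mem_or_mem h1).resolve_right S.disc_not

theorem SetR.eval_zero' (S : SetR m ρ ge gen wgt disc I) (P : MvPolynomial U K) :
    eval 0 (aeval gen P) = eval 0 P := by
  rw [eval_aeval]
  have : (fun k => eval 0 (gen k)) = (0 : U → K) := funext fun k => by
    have := eval_zero_of_weight (wgt := 1) (S.pos k) (S.gen_hom k)
    exact this
  rw [this]

theorem SetR.zero_mem (S : SetR m ρ ge gen wgt disc I) : (0 : V → K) ∈ cone I := by
  intro F hF
  have h1 := S.hom F hF 0
  rw [homogeneousComponent_zero] at h1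
  rw [eval_zero, constantCoeff_eq]
  by_contra h
  exact S.prime.ne_top (Ideal.eq_top_of_isUnit_mem _ h1 ((isUnit_iff_ne_zero.2 h).map C))

theorem SetR.low_span' (S : SetR m ρ ge gen wgt disc I) {n : ℕ} {F : MvPolynomial V K} (hF : F ∈ I)
    (hn : F.totalDegree < n) :
    F ∈ Ideal.span (Set.range ge ∪ {G | G ∈ I ∧ ∃ e < n, ∃ P : MvPolynomial U K,
      IsWeightedHomogeneous wgt P e ∧ aeval gen P = G}) := by
  rw [← sum_homogeneousComponent F]
  refine Ideal.sum_mem _ fun e he => ?_
  rw [Finset.mem_range] at he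
  rw [S.span] at hF
  have h1 := homogeneousComponent_mem_span hF e
  refine (Ideal.span_le.2 ?_) h1
  rintro _ ⟨t, (⟨k, rfl⟩ | ⟨htI, P, hP⟩), e', he', rfl⟩
  · obtain ⟨d, -, hd⟩ := S.ge_hom k
    rw [SetLike.mem_coe, homogeneousComponent_of_mem hd]
    split_ifs
    · exact Ideal.subset_span (Or.inl ⟨k, rfl⟩)
    · exact Ideal.zero_mem _
  · refine Ideal.subset_span (Or.inr ⟨S.hom t htI e', e', by omega,
      weightedHomogeneousComponent wgt e' P,
      weightedHomogeneousComponent_isWeightedHomogeneous e' P, ?_⟩)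
    rw [← S.comp, hP]

/-- polynomials whose weight is not a multiple of `m` -/
theorem eval_mod {wgt : U → ℕ} {m κ : ℕ} (h01 : ∀ k, wgt k = m ∨ wgt k = 1)
    {Q : MvPolynomial U K} (hQ : IsWeightedHomogeneous wgt Q κ) (hκ : ¬ m ∣ κ) {w : U → K}
    (hw : ∀ k, wgt k = 1 → w k = 0) : eval w Q = 0 := by
  classical
  rw [eval_eq']
  refine Finset.sum_eq_zero fun d hd => ?_
  have h1 : Finsupp.weight wgt d = κ := hQ (mem_support_iff.1 hd)
  obtain ⟨k, hk, hdk⟩ : ∃ k, wgt k = 1 ∧ d k ≠ 0 := by
    by_contra h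
    push Not at h
    apply hκ
    rw [← h1, Finsupp.weight_apply, Finsupp.sum]
    refine Finset.dvd_sum fun k hk => ?_
    rcases h01 k with h2 | h2
    · rw [h2, smul_eq_mul]
      exact dvd_mul_left _ _
    · exact absurd (h k h2) (Finsupp.mem_support_iff.1 hk)
  rw [Finset.prod_eq_zero (Finset.mem_univ k) (by rw [hw k hk, zero_pow hdk]), mul_zero]

/-- polynomials of weight `m` -/
theorem eval_m [CharZero K] {wgt : U → ℕ} {m : ℕ} (hm : 2 ≤ m)
    (h01 : ∀ k, wgt k = m ∨ wgt k = 1)
    {Q : MvPolynomial U K} (hQ : IsWeightedHomogeneous wgt Q m) {w : U → K}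
    (hw : ∀ k, wgt k = 1 → w k = 0) : eval w Q = ∑ k, w k * CT.lin k Q := by
  classical
  have hpos : ∀ k, 0 < wgt k := fun k => by rcases h01 k with h | h <;> omega
  have h1 := congrArg (eval w) hQ.sum_weight_X_mul_pderiv
  simp only [map_sum, map_nsmul, map_mul, eval_X] at h1
  have h2 : ∑ i, wgt i • (w i * eval w (pderiv i Q)) = m • ∑ j, w j * CT.lin j Q := by
    rw [Finset.smul_sum]
    refine Finset.sum_congr rfl fun i _ => ?_
    rcases h01 i with hi | hi
    · rw [pderiv_high hpos hQ hi.ge, eval_C, hi]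
    · rw [hw i hi, zero_mul, zero_mul, smul_zero, smul_zero]
  rw [h2, nsmul_eq_mul, nsmul_eq_mul] at h1
  have h3 : (m : K) ≠ 0 := Nat.cast_ne_zero.2 (by omega)
  exact (mul_left_cancel₀ h3 h1).symm

/-- the values at the points with vanishing coordinates of weight `1` -/
theorem SetR.low_eval [CharZero K] (S : SetR m ρ ge gen wgt disc I)
    (hNL : ∀ P : MvPolynomial U K, aeval gen P ∈ I → ∀ u, CT.lin u P = 0)
    {P : MvPolynomial U K} {e : ℕ} (he : e < 2 * m) (hP : IsWeightedHomogeneous wgt P e)
    (hPI : aeval gen P ∈ I) {w : U → K} (hw : ∀ k, wgt k = 1 → w k = 0) : eval w P = 0 := by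
  classical
  have hm := S.hm
  rcases Nat.eq_zero_or_pos e with h0 | h0
  · subst h0
    have h1 : P = C (coeff 0 P) := by
      apply MvPolynomial.ext
      intro u
      rw [coeff_C]
      by_cases hu : 0 = u
      · rw [if_pos hu, hu]
      · rw [if_neg hu]
        by_contra h2
        have h3 := hP h2
        exact hu (CT.eq_zero_of_weight S.pos h3).symm
    have h2 : eval 0 P = 0 := by
      rw [← S.eval_zero']
      exact S.zero_mem _ hPI
    rw [h1, eval_C] at h2 ⊢
    exact h2
  by_cases hem : e = m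
  · subst hem
    rw [eval_m hm S.w01 hP hw]
    refine Finset.sum_eq_zero fun k _ => ?_
    rw [hNL P hPI, mul_zero]
  · refine eval_mod S.w01 hP ?_ hw
    rintro ⟨q, rfl⟩
    rcases q with _ | _ | q
    · omega
    · omega
    · nlinarith

/-- the gradients at the points with vanishing coordinates of weight `1` -/
theorem SetR.low_grad [CharZero K] (S : SetR m ρ ge gen wgt disc I)
    (hNL : ∀ P : MvPolynomial U K, aeval gen P ∈ I → ∀ u, CT.lin u P = 0)
    {P : MvPolynomial U K} {e : ℕ} (he : e < 2 * m) (hP : IsWeightedHomogeneous wgt P e)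
    (hPI : aeval gen P ∈ I) {w : U → K} (hw : ∀ k, wgt k = 1 → w k = 0) (hem : e ≠ m + 1) :
    grad P w = 0 := by
  classical
  have hm := S.hm
  funext k
  show eval w (pderiv k P) = 0
  by_cases hek : e ≤ wgt k
  · rw [pderiv_high S.pos hP hek, eval_C]
    exact hNL P hPI k
  push Not at hek
  have hQ : IsWeightedHomogeneous wgt (pderiv k P) (e - wgt k) := hP.pderiv (by omega)
  refine eval_mod S.w01 hQ ?_ hw
  rintro ⟨q, hq⟩
  rcases S.w01 k with hk | hk
  · rcases q with _ | q
    · omega
    · rw [hk] at hq hek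
      have : m * (q + 1) ≥ m := Nat.le_mul_of_pos_right m (by omega)
      omega
  · rcases q with _ | _ | q
    · omega
    · omega
    · have : m * (q + 1 + 1) ≥ 2 * m := by nlinarith
      omega

end Pool.Agent.X269.HG
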