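import Pool.Agent.X269.HG.SetR

/-!
Smooth varieties which come from a weighted projective space with the weights `m` and `1`: the
case without linear parts.
-/

set_option autoImplicit false

namespace Pool.Agent.X269.HG

open MvPolynomial Pool.Agent.W467.Sym
open Pool.Agent.X269.CT (pderiv_high weight_of_lin lin_eq_coeff mem_of_cone eval_zero_of_weight)

variable {K : Type} [Field K] {V E : Type} [Fintype V] [Fintype E]

variable {n s m ρ : ℕ} {ge : E → MvPolynomial V K} {gen : Fin n → MvPolynomial V K}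
  {disc : MvPolynomial V K} {I : Ideal (MvPolynomial V K)}

theorem wg_one {k : Fin n} (hm : 2 ≤ m) (hk : wg n s m k = 1) : s ≤ k.1 := by
  by_contra h
  rw [wg, if_pos (by omega)] at hk
  omega

/-- the point on the variety -/
theorem SetR.point [IsAlgClosed K] [CharZero K] (S : SetR m ρ ge gen (wg n s m) disc I)
    (hNL : ∀ P : MvPolynomial (Fin n) K, aeval gen P ∈ I → ∀ u, CT.lin u P = 0)
    {w : Fin n → K} (hw0 : w ≠ 0) (hw : ∀ k, s ≤ k.1 → w k = 0) :
    ∃ z ∈ cone I, z ≠ 0 ∧ (∀ k, eval z (ge k) = 0) ∧ (∀ k, eval z (gen k) = w k) ∧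
      conormal I z ≤ Submodule.span K {ξ | ∃ F ∈ I, F.totalDegree < 2 * m ∧ ξ = grad F z} := by
  have hw' : ∀ k, wg n s m k = 1 → w k = 0 := fun k hk => hw k (wg_one S.hm hk)
  obtain ⟨z, hz0, hzE, hzG, hc1, hc2⟩ := S.pts w hw0 hw'
  have hz : z ∈ cone I := by
    by_contra h
    obtain ⟨F, hF, hFd, hFz⟩ := hc1 h
    apply hFz
    refine (grad_mem_span (x := z) ?_ (S.low_span' hF hFd)).1
    rintro _ (⟨k, rfl⟩ | ⟨hGI, e, he, P, hP, rfl⟩)
    · exact hzE k
    · rw [eval_aeval]
      have : (fun k => eval z (gen k)) = w := funext hzG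
      rw [this]
      exact S.low_eval hNL he hP hGI hw'
  exact ⟨z, hz, hz0, hzE, hzG, hc2 hz⟩

/-- the algebraic hypotheses -/
theorem SetR.core [IsAlgClosed K] [CharZero K] (S : SetR m ρ ge gen (wg n s m) disc I)
    (hsn : s ≤ n) (h2 : 2 * ρ ≤ s)
    (hNL : ∀ P : MvPolynomial (Fin n) K, aeval gen P ∈ I → ∀ u, CT.lin u P = 0) :
    Core s m ρ (I.comap (aeval gen : MvPolynomial (Fin n) K →ₐ[K] _)) := by
  classical
  have hI := S.prime
  refine
    { hm := S.hm
      hsn := hsn
      h2 := h2
      prime := Ideal.comap_isPrime _ _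
      comp := fun G hG d => S.comp_mem hG d
      jac := fun P hP c => S.jac_mem P hP c
      nolin := hNL
      van := ?_
      rk := ?_ }
  · intro G hG w hw
    by_cases hw0 : w = 0
    · rw [hw0, ← S.eval_zero']
      exact S.zero_mem _ hG
    · obtain ⟨z, hz, -, -, hzG, -⟩ := S.point hNL hw0 hw
      have h1 := hz _ hG
      have h3 : (aeval gen : MvPolynomial (Fin n) K →ₐ[K] _) G = aeval gen G := rfl
      rw [eval_aeval] at h1
      have : (fun k => eval z (gen k)) = w := funext hzG
      rwa [this] at h1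
  · intro w hw0 hw
    have hw' : ∀ k, wg n s m k = 1 → w k = 0 := fun k hk => hw k (wg_one S.hm hk)
    obtain ⟨z, hz, hz0, hzE, hzG, hc2⟩ := S.point hNL hw0 hw
    have hzw : (fun k => eval z (gen k)) = w := funext hzG
    set D := Submodule.span K {ξ | ∃ P ∈ I.comap (aeval gen : MvPolynomial (Fin n) K →ₐ[K] _),
      IsWeightedHomogeneous (wg n s m) P (m + 1) ∧ ξ = grad P w} with hD
    set T : (Fin n → K) →ₗ[K] (V → K) :=
      Fintype.linearCombination K (fun k => grad (gen k) z) with hT
    have hle : conormal I z ≤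
        Submodule.span K (Set.range fun k => grad (ge k) z) ⊔ D.map T := by
      refine hc2.trans ?_
      rw [Submodule.span_le]
      rintro _ ⟨F, hF, hFd, rfl⟩
      have h3 := (grad_mem_span (x := z) (by
        rintro _ (⟨k, rfl⟩ | ⟨hGI, -⟩)
        · exact hzE k
        · exact hz _ hGI) (S.low_span' hF hFd)).2
      refine (Submodule.span_le.2 ?_) h3
      rintro _ ⟨G, (⟨k, rfl⟩ | ⟨hGI, e, he, P, hP, rfl⟩), rfl⟩
      · exact (le_sup_left : _ ≤ Submodule.span K (Set.range fun k => grad (ge k) z) ⊔ D.map T)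
          (Submodule.subset_span ⟨k, rfl⟩)
      · refine (le_sup_right : _ ≤ Submodule.span K (Set.range fun k => grad (ge k) z) ⊔ D.map T) ?_
        show grad (aeval gen P) z ∈ D.map T
        rw [grad_aeval, hzw]
        have h4 : ∑ k, eval w (pderiv k P) • grad (gen k) z = T (grad P w) := by
          rw [hT, Fintype.linearCombination_apply]
          rfl
        rw [h4]
        by_cases hem : e = m + 1
        · subst hem
          exact ⟨_, Submodule.subset_span ⟨P, hGI, hP, rfl⟩, rfl⟩
        · rw [S.low_grad hNL he hP hGI hw' hem, map_zero]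
          exact Submodule.zero_mem _
    have h3 := Submodule.finrank_mono hle
    rw [S.smooth z hz hz0] at h3
    have h4 := Submodule.finrank_add_le_finrank_add_finrank
      (Submodule.span K (Set.range fun k => grad (ge k) z)) (D.map T)
    have h5 := finrank_range_le_card (R := K) (fun k : E => grad (ge k) z)
    have h6 : Module.finrank K (D.map T) ≤ Module.finrank K D := Submodule.finrank_map_le T D
    rw [Set.finrank] at h5
    omega

/-- The theorem, without linear parts. -/
theorem SetR.mainNL [IsAlgClosed K] [CharZero K] (S : SetR m ρ ge gen (wg n s m) disc I)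
    (hsn : s ≤ n) (h2 : 2 * ρ ≤ s)
    (hNL : ∀ P : MvPolynomial (Fin n) K, aeval gen P ∈ I → ∀ u, CT.lin u P = 0) :
    ∃ F : E ⊕ Fin ρ → MvPolynomial V K,
      (∀ i, ∃ d, (d = 1 ∨ d = m ∨ d = m + 1) ∧ (F i).IsHomogeneous d) ∧
      I = Ideal.span (Set.range F) := by
  classical
  obtain ⟨F, hF, hJ⟩ := (S.core hsn h2 hNL).main
  refine ⟨Sum.elim ge (fun a => aeval gen (F a)), ?_, ?_⟩
  · rintro (i | i)
    · obtain ⟨d, hd, h⟩ := S.ge_hom i
      refine ⟨d, ?_, h⟩
      rcases hd with hd | hd
      · exact Or.inl hd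
      · exact Or.inr (Or.inl hd)
    · exact ⟨_, Or.inr (Or.inr rfl), S.hom_of_wh (hF i).2⟩
  · apply le_antisymm
    · conv_lhs => rw [S.span]
      rw [Ideal.span_le]
      rintro _ (⟨k, rfl⟩ | ⟨hFI, P, rfl⟩)
      · exact Ideal.subset_span ⟨Sum.inl k, rfl⟩
      · have h1 : P ∈ I.comap (aeval gen : MvPolynomial (Fin n) K →ₐ[K] _) := hFI
        rw [hJ] at h1
        obtain ⟨c, rfl⟩ := Ideal.mem_span_range_iff_exists_fun.1 h1
        rw [SetLike.mem_coe, map_sum]
        refine Ideal.sum_mem _ fun a _ => ?_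
        rw [map_mul]
        exact Ideal.mul_mem_left _ _ (Ideal.subset_span ⟨Sum.inr a, rfl⟩)
    · rw [Ideal.span_le]
      rintro _ ⟨i | i, rfl⟩
      · exact S.ge_mem i
      · exact (hF i).1

end Pool.Agent.X269.HG
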