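import Pool.Agent.X269.HG.SetR2

/-!
Smooth varieties which come from a weighted projective space with the weights `m` and `1`: the
theorem.
-/

set_option autoImplicit false

namespace Pool.Agent.X269.HG

open MvPolynomial Pool.Agent.W467.Sym
open Pool.Agent.X269.CT (pderiv_high weight_of_lin lin_eq_coeff mem_of_cone eval_zero_of_weight)

variable {K : Type} [Field K] {V U E : Type} [Fintype V] [Fintype U] [Fintype E]

variable {m ρ : ℕ} {ge : E → MvPolynomial V K} {gen : U → MvPolynomial V K} {wgt : U → ℕ}
  {disc : MvPolynomial V K} {I : Ideal (MvPolynomial V K)}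

theorem SetR.reindex (S : SetR m ρ ge gen wgt disc I) {U' : Type} [Fintype U'] (e : U ≃ U') :
    SetR m ρ ge (gen ∘ e.symm) (wgt ∘ e.symm) disc I where
  hm := S.hm
  w01 := fun k => S.w01 _
  gen_hom := fun k => S.gen_hom _
  ge_mem := S.ge_mem
  ge_hom := S.ge_hom
  disc_ind := by
    intro x hx
    have h := (S.disc_ind x hx).comp (Sum.map id e.symm)
      (Sum.map_injective.2 ⟨Function.injective_id, e.symm.injective⟩)
    convert h using 1
    funext k
    rcases k with k | k <;> rfl
  disc_zero := S.disc_zero
  prime := S.prime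
  hom := S.hom
  smooth := S.smooth
  disc_not := S.disc_not
  span := by
    conv_lhs => rw [S.span]
    congr 2
    ext F
    constructor
    · rintro ⟨hF, P, rfl⟩
      refine ⟨hF, rename e P, ?_⟩
      rw [aeval_rename]
      congr 1
      congr 1
      funext k
      simp
    · rintro ⟨hF, P, rfl⟩
      refine ⟨hF, rename e.symm P, ?_⟩
      rw [aeval_rename]
  pts := by
    intro w hw0 hw
    obtain ⟨z, h1, h2, h3, h4⟩ := S.pts (w ∘ e) (by
      intro h
      apply hw0
      funext k
      have := congrFun h (e.symm k)
      simpa using this) (fun k hk => hw (e k) (by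
        rw [Function.comp_apply, e.symm_apply_apply]
        exact hk))
    refine ⟨z, h1, h2, fun k => ?_, h4⟩
    rw [Function.comp_apply, h3, Function.comp_apply, e.apply_symm_apply]

section elim

variable [DecidableEq U]

/-- elimination of a coordinate -/
theorem helim (hpos : ∀ k, 0 < wgt k) {P : MvPolynomial U K} {e : ℕ}
    (hP : IsWeightedHomogeneous wgt P e) {u : U} (h1 : CT.lin u P = 1) (Q : MvPolynomial U K) :
    ∃ (R : MvPolynomial {k // k ≠ u} K) (s : MvPolynomial U K),
      Q = rename Subtype.val R + s * P := by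
  classical
  set ren : MvPolynomial {k // k ≠ u} K →ₐ[K] MvPolynomial U K := rename Subtype.val with hren
  obtain ⟨R, hR⟩ := elim wgt hpos (fun _ : Fin 1 => P) (fun _ => e) (fun _ => hP)
    (n' := Fintype.card {k // k ≠ u}) (fun j => ((Fintype.equivFin {k // k ≠ u}).symm j).1) (by
      intro k
      have hsum : ∀ f : U → (U → K),
          ∑ j, f ((Fintype.equivFin {k // k ≠ u}).symm j).1 = ∑ k ∈ Finset.univ.erase u, f k := by
        intro f
        rw [Finset.sum_subtype (p := fun k : U => k ≠ u) (Finset.univ.erase u)
          (fun k => by simp)]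
        exact Fintype.sum_equiv (Fintype.equivFin {k // k ≠ u}).symm _ _ (fun j => rfl)
      by_cases hk : k = u
      · refine ⟨fun _ => 1, fun j => - CT.lin ((Fintype.equivFin {k // k ≠ u}).symm j).1 P, ?_⟩
        rw [hsum (fun k => (- CT.lin k P) • (Pi.single k 1 : U → K))]
        have h2 : (fun l => coeff (Finsupp.single l 1) P) =
            ∑ k, CT.lin k P • (Pi.single k 1 : U → K) := by
          ext l
          simp [Pi.single_apply, lin_eq_coeff]
        simp only [Finset.univ_unique, Finset.sum_singleton, one_smul]
        rw [h2, ← Finset.add_sum_erase _ _ (Finset.mem_univ u), add_assoc,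
          ← Finset.sum_add_distrib, h1, hk]
        simp
      · refine ⟨0, Pi.single (Fintype.equivFin {k // k ≠ u} ⟨k, hk⟩) 1, ?_⟩
        simp only [Pi.zero_apply, zero_smul, Finset.sum_const_zero, zero_add]
        rw [Finset.sum_eq_single (Fintype.equivFin {k // k ≠ u} ⟨k, hk⟩)]
        · rw [Pi.single_eq_same, one_smul]
          simp
        · intro j _ hj
          rw [Pi.single_eq_of_ne hj, zero_smul]
        · intro h
          exact absurd (Finset.mem_univ _) h) Q
  rw [Set.range_const, Ideal.mem_span_singleton'] at hR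
  obtain ⟨s, hs⟩ := hR
  refine ⟨aeval (fun j => X ((Fintype.equivFin {k // k ≠ u}).symm j)) R, s, ?_⟩
  have h3 : ren (aeval (fun j => X ((Fintype.equivFin {k // k ≠ u}).symm j)) R) =
      aeval (fun j => (X ((Fintype.equivFin {k // k ≠ u}).symm j).1 : MvPolynomial U K)) R := by
    have : ren.comp (aeval (fun j => X ((Fintype.equivFin {k // k ≠ u}).symm j))) =
        aeval (fun j => (X ((Fintype.equivFin {k // k ≠ u}).symm j).1 : MvPolynomial U K)) := by
      apply MvPolynomial.algHom_ext
      intro j
      rw [AlgHom.comp_apply, aeval_X, aeval_X, hren, rename_X]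
    exact congrArg (fun φ => φ R) this
  rw [h3, hs]
  ring

/-- the value of an element with a linear part -/
theorem eval_lin_part [CharZero K] (S : SetR m ρ ge gen wgt disc I) {P : MvPolynomial U K} {e : ℕ}
    (hP : IsWeightedHomogeneous wgt P e) {u : U} (hu : CT.lin u P ≠ 0) {w : U → K}
    (hw : ∀ k, wgt k = 1 → w k = 0) : eval w P = ∑ k, w k * CT.lin k P := by
  have hm := S.hm
  have h1 := weight_of_lin hP hu
  rcases S.w01 u with h | h
  · have hem : e = m := by omega
    subst hem
    exact eval_m hm S.w01 hP hw
  · have hem : e = 1 := by omega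
    subst hem
    rw [eval_mod S.w01 hP (by
      intro h
      have := Nat.le_of_dvd one_pos h
      omega) hw]
    symm
    refine Finset.sum_eq_zero fun k _ => ?_
    by_cases hk : CT.lin k P = 0
    · rw [hk, mul_zero]
    · rw [hw k (weight_of_lin hP hk), zero_mul]

theorem SetR.elim1 [IsAlgClosed K] [CharZero K] (S : SetR m ρ ge gen wgt disc I)
    {P : MvPolynomial U K} {e : ℕ}
    (hP : IsWeightedHomogeneous wgt P e) (hPI : aeval gen P ∈ I) {u : U} (h1 : CT.lin u P = 1) :
    1 ≤ ρ ∧ SetR m (ρ - 1) (Sum.elim ge (fun _ : Unit => aeval gen P))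
      (fun k : {k // k ≠ u} => gen k.1) (fun k => wgt k.1) disc I := by
  classical
  have hI := S.prime
  have hwu : wgt u = e := weight_of_lin hP (by rw [h1]; exact one_ne_zero)
  have hdP : pderiv u P = 1 := by
    rw [pderiv_high S.pos hP hwu.ge, h1, C_1]
  -- independence
  have hind : ∀ x, eval x disc ≠ 0 → LinearIndependent K
      (Sum.elim (fun k => grad (Sum.elim ge (fun _ : Unit => aeval gen P) k) x)
        (fun k : {k // k ≠ u} => grad (gen k.1) x)) := by
    intro x hx
    have h := S.disc_ind x hx
    rw [Fintype.linearIndependent_iff] at h ⊢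
    intro c hc
    rw [Fintype.sum_sum_type, Fintype.sum_sum_type] at hc
    simp only [Sum.elim_inl, Sum.elim_inr, Finset.univ_unique, Finset.sum_singleton] at hc
    set pk : U → K := fun k => eval (fun k => eval x (gen k)) (pderiv k P) with hpk
    have hpu : pk u = 1 := by
      simp only [hpk]
      rw [hdP, map_one]
    set β : K := c (Sum.inl (Sum.inr default)) with hβ
    have h2 := h (Sum.elim (fun k => c (Sum.inl (Sum.inl k)))
      (fun k => β * pk k + if h : k ≠ u then c (Sum.inr ⟨k, h⟩) else 0)) (by
      rw [Fintype.sum_sum_type]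
      simp only [Sum.elim_inl, Sum.elim_inr]
      rw [← hc, grad_aeval, Finset.smul_sum, add_assoc]
      congr 1
      simp only [add_smul, Finset.sum_add_distrib]
      congr 1
      · refine Finset.sum_congr rfl fun k _ => ?_
        rw [mul_smul]
      · rw [← Finset.sum_subset (Finset.subset_univ (Finset.univ.filter fun k => k ≠ u))]
        · rw [Finset.sum_subtype (p := fun k : U => k ≠ u) (Finset.univ.filter fun k => k ≠ u)
            (fun k => by simp)]
          refine Finset.sum_congr rfl fun k _ => ?_
          rw [dif_pos k.2]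
        · intro k _ hk
          rw [dif_neg (by simpa using hk), zero_smul])
    have h3 : β = 0 := by
      have := h2 (Sum.inr u)
      simp only [Sum.elim_inr] at this
      rwa [hpu, mul_one, dif_neg (by simp), add_zero] at this
    rintro ((k | k) | k)
    · exact h2 (Sum.inl k)
    · exact h3
    · have := h2 (Sum.inr k.1)
      simp only [Sum.elim_inr] at this
      rw [h3, zero_mul, zero_add, dif_pos k.2] at this
      exact this
  -- the rank
  have hρ : 1 ≤ ρ := by
    obtain ⟨x, hx, hxd⟩ : ∃ x ∈ cone I, eval x disc ≠ 0 := by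
      by_contra h
      push Not at h
      exact S.disc_not (mem_of_cone I h)
    have hx0 : x ≠ 0 := by
      rintro rfl
      exact hxd S.disc_zero
    have h2 := (hind x hxd).comp Sum.inl Sum.inl_injective
    have h3 := finrank_span_eq_card h2
    have h4 : Submodule.span K (Set.range ((Sum.elim
        (fun k => grad (Sum.elim ge (fun _ : Unit => aeval gen P) k) x)
        (fun k : {k // k ≠ u} => grad (gen k.1) x)) ∘ Sum.inl)) ≤ conormal I x := by
      rw [Submodule.span_le]
      rintro _ ⟨k | k, rfl⟩
      · exact Submodule.subset_span ⟨_, S.ge_mem k, rfl⟩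
      · exact Submodule.subset_span ⟨_, hPI, rfl⟩
    have h5 := Submodule.finrank_mono h4
    rw [h3, S.smooth x hx hx0, Fintype.card_sum, Fintype.card_unit] at h5
    omega
  refine ⟨hρ, ?_⟩
  refine
    { hm := S.hm
      w01 := fun k => S.w01 _
      gen_hom := fun k => S.gen_hom _
      ge_mem := ?_
      ge_hom := ?_
      disc_ind := hind
      disc_zero := S.disc_zero
      prime := S.prime
      hom := S.hom
      smooth := ?_
      disc_not := S.disc_not
      span := ?_
      pts := ?_ }
  · rintro (k | k)
    · exact S.ge_mem k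
    · exact hPI
  · rintro (k | k)
    · exact S.ge_hom k
    · refine ⟨e, ?_, S.hom_of_wh hP⟩
      rw [← hwu]
      exact (S.w01 u).symm
  · intro x hx hx0
    rw [S.smooth x hx hx0, Fintype.card_sum, Fintype.card_unit]
    omega
  · apply le_antisymm
    · conv_lhs => rw [S.span]
      rw [Ideal.span_le]
      rintro _ (⟨k, rfl⟩ | ⟨hF, Q, rfl⟩)
      · exact Ideal.subset_span (Or.inl ⟨Sum.inl k, rfl⟩)
      · obtain ⟨R, s, rfl⟩ := helim S.pos hP h1 Q
        have h2 : aeval gen (rename Subtype.val R) ∈ I := by
          have h3 : aeval gen (rename Subtype.val R) = aeval gen (rename Subtype.val R + s * P) -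
              aeval gen s * aeval gen P := by
            rw [map_add, map_mul]; ring
          rw [h3]
          exact I.sub_mem hF (I.mul_mem_left _ hPI)
        rw [SetLike.mem_coe, map_add, map_mul]
        refine Ideal.add_mem _ (Ideal.subset_span (Or.inr ⟨h2, R, ?_⟩))
          (Ideal.mul_mem_left _ _ (Ideal.subset_span (Or.inl ⟨Sum.inr (), rfl⟩)))
        rw [aeval_rename]
        rfl
    · rw [Ideal.span_le]
      rintro _ (⟨k | k, rfl⟩ | ⟨hF, -⟩)
      · exact S.ge_mem k
      · exact hPI
      · exact hF
  · intro w hw0 hw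
    set w' : U → K := fun k => if h : k ≠ u then w ⟨k, h⟩ else
      -∑ j : {k // k ≠ u}, w j * CT.lin j.1 P with hw'
    have hw'1 : ∀ k : {k // k ≠ u}, w' k.1 = w k := fun k => by
      simp only [hw']
      rw [dif_pos k.2]
    have hw'u : w' u = -∑ j : {k // k ≠ u}, w j * CT.lin j.1 P := by
      simp only [hw']
      rw [dif_neg (by simp)]
    have hw'0 : w' ≠ 0 := by
      intro h
      apply hw0
      funext k
      rw [← hw'1 k, h]
      rfl
    have hw'w : ∀ k, wgt k = 1 → w' k = 0 := by
      intro k hk
      by_cases h : k = u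
      · subst h
        rw [hw'u, neg_eq_zero]
        refine Finset.sum_eq_zero fun j _ => ?_
        by_cases hj : CT.lin j.1 P = 0
        · rw [hj, mul_zero]
        · rw [hw j (by rw [weight_of_lin hP hj, ← hwu, hk]), zero_mul]
      · have := hw'1 ⟨k, h⟩
        rw [this]
        exact hw ⟨k, h⟩ hk
    obtain ⟨z, hz0, hzE, hzG, h4⟩ := S.pts w' hw'0 hw'w
    refine ⟨z, hz0, ?_, fun k => ?_, h4⟩
    · rintro (k | k)
      · exact hzE k
      · rw [Sum.elim_inr, eval_aeval]
        have : (fun k => eval z (gen k)) = w' := funext hzG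
        rw [this, eval_lin_part S hP (by rw [h1]; exact one_ne_zero) hw'w]
        have h5 : ∑ k, w' k * CT.lin k P = w' u * CT.lin u P +
            ∑ j : {k // k ≠ u}, w' j.1 * CT.lin j.1 P := by
          rw [← Finset.add_sum_erase _ _ (Finset.mem_univ u)]
          congr 1
          rw [Finset.sum_subtype (p := fun k : U => k ≠ u) (Finset.univ.erase u)
            (fun k => by simp)]
        rw [h5, hw'u, h1, mul_one]
        simp only [hw'1]
        ring
    · rw [hzG, hw'1]

end elim

end Pool.Agent.X269.HG
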