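import Pool.Agent.X269.HG.SetR3

/-!
Smooth varieties which come from a weighted projective space with the weights `m` and `1`: the
theorem.
-/

set_option autoImplicit false

namespace Pool.Agent.X269.HG

open MvPolynomial Pool.Agent.W467.Sym
open Pool.Agent.X269.CT (pderiv_high weight_of_lin lin_eq_coeff mem_of_cone eval_zero_of_weight)

variable {K : Type} [Field K] {V : Type} [Fintype V]

theorem SetR.mainNL' [IsAlgClosed K] [CharZero K] {U E : Type} [Fintype U] [Fintype E]
    {m ρ : ℕ} {ge : E → MvPolynomial V K} {gen : U → MvPolynomial V K} {wgt : U → ℕ}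
    {disc : MvPolynomial V K} {I : Ideal (MvPolynomial V K)}
    (S : SetR m ρ ge gen wgt disc I) (h2 : 2 * ρ ≤ Nat.card {k // wgt k = m})
    (hNL : ∀ P : MvPolynomial U K, aeval gen P ∈ I → ∀ u, CT.lin u P = 0) :
    ∃ F : E ⊕ Fin ρ → MvPolynomial V K,
      (∀ i, ∃ d, (d = 1 ∨ d = m ∨ d = m + 1) ∧ (F i).IsHomogeneous d) ∧
      I = Ideal.span (Set.range F) := by
  classical
  have hm := S.hm
  set a := Nat.card {k // wgt k = m} with ha
  set b := Nat.card {k // ¬ wgt k = m} with hb
  have ha' : Fintype.card {k // wgt k = m} = a := by rw [ha, Nat.card_eq_fintype_card]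
  have hb' : Fintype.card {k // ¬ wgt k = m} = b := by rw [hb, Nat.card_eq_fintype_card]
  set e : U ≃ Fin (a + b) :=
    ((Equiv.sumCompl (fun k => wgt k = m)).symm.trans
      (Equiv.sumCongr (Fintype.equivFinOfCardEq ha') (Fintype.equivFinOfCardEq hb'))).trans
      finSumFinEquiv with he
  have hw : wgt ∘ e.symm = wg (a + b) a m := by
    funext i
    obtain ⟨k, rfl⟩ := e.surjective i
    rw [Function.comp_apply, e.symm_apply_apply]
    by_cases hk : wgt k = m
    · have h1 : (e k).1 < a := by
        rw [he]
        simp only [Equiv.trans_apply]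
        rw [Equiv.sumCompl_symm_apply_of_pos (p := fun k => wgt k = m) hk]
        simp
      rw [wg, if_pos h1, hk]
    · have h1 : ¬ (e k).1 < a := by
        rw [he]
        simp only [Equiv.trans_apply]
        rw [Equiv.sumCompl_symm_apply_of_neg (p := fun k => wgt k = m) hk]
        simp
      rw [wg, if_neg h1]
      exact (S.w01 k).resolve_left hk
  have S' := S.reindex e
  rw [hw] at S'
  refine S'.mainNL (Nat.le_add_right a b) h2 ?_
  intro P hP u
  have h3 : aeval gen (rename e.symm P) ∈ I := by
    rw [aeval_rename]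
    exact hP
  have h4 := hNL _ h3 (e.symm u)
  rw [CT.lin, pderiv_rename e.symm.injective, eval_rename] at h4
  exact h4

/-- The theorem, by induction on the number of coordinates. -/
theorem SetR.mainN [IsAlgClosed K] [CharZero K] (N : ℕ) : ∀ {U E : Type} [Fintype U] [Fintype E]
    {m ρ : ℕ} {ge : E → MvPolynomial V K} {gen : U → MvPolynomial V K} {wgt : U → ℕ}
    {disc : MvPolynomial V K} {I : Ideal (MvPolynomial V K)}
    (_ : SetR m ρ ge gen wgt disc I) (_ : Nat.card U = N)
    (_ : 2 * ρ ≤ Nat.card {k // wgt k = m}) (r : ℕ) (_ : Fintype.card E + ρ = r),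
    ∃ F : Fin r → MvPolynomial V K,
      (∀ i, ∃ d, (d = 1 ∨ d = m ∨ d = m + 1) ∧ (F i).IsHomogeneous d) ∧
      I = Ideal.span (Set.range F) := by
  classical
  induction N using Nat.strong_induction_on with
  | _ N ih =>
  intro U E _ _ m ρ ge gen wgt disc I S hN h2 r hr
  have hm := S.hm
  by_cases hlin : ∃ (P : MvPolynomial U K) (e : ℕ) (u : U), IsWeightedHomogeneous wgt P e ∧
      aeval gen P ∈ I ∧ CT.lin u P ≠ 0
  · obtain ⟨P, e, u, h1, h3, h4⟩ := hlin
    set P' := C (CT.lin u P)⁻¹ * P with hP'
    have hC : CT.lin u (C (CT.lin u P)⁻¹ : MvPolynomial U K) = 0 := by simp [CT.lin]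
    have h5 : CT.lin u P' = 1 := by
      rw [hP', CT.lin_mul, eval_C, hC, mul_zero, add_zero, inv_mul_cancel₀ h4]
    have h6 : aeval gen P' ∈ I := by
      rw [hP', map_mul]
      exact I.mul_mem_left _ h3
    obtain ⟨hρ, S'⟩ := S.elim1 (h1.C_mul _) h6 h5
    have hcard : Nat.card {k // k ≠ u} = N - 1 := by
      rw [← hN, Nat.card_eq_fintype_card, Nat.card_eq_fintype_card, Fintype.card_subtype_compl,
        Fintype.card_subtype_eq]
    have hN1 : 1 ≤ N := by
      rw [← hN, Nat.card_eq_fintype_card]
      exact Fintype.card_pos_iff.2 ⟨u⟩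
    refine ih (N - 1) (by omega) S' hcard ?_ r ?_
    · -- the number of coordinates of weight `m`
      have h7 : Nat.card {k // wgt k = m} ≤ Nat.card {k : {k // k ≠ u} // wgt k.1 = m} + 1 := by
        rw [Nat.card_eq_fintype_card, Nat.card_eq_fintype_card]
        have h8 : Fintype.card {k // wgt k = m} ≤
            Fintype.card (Option {k : {k // k ≠ u} // wgt k.1 = m}) := by
          refine Fintype.card_le_of_injective
            (fun k : {k // wgt k = m} => if h : k.1 ≠ u then
              some (⟨⟨k.1, h⟩, k.2⟩ : {k : {k // k ≠ u} // wgt k.1 = m}) else none) ?_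
          intro k l hkl
          simp only at hkl
          by_cases hk : k.1 ≠ u
          · by_cases hl : l.1 ≠ u
            · rw [dif_pos hk, dif_pos hl] at hkl
              have := Option.some_injective _ hkl
              exact Subtype.ext (congrArg (fun x => x.1.1) this)
            · rw [dif_pos hk, dif_neg hl] at hkl
              exact absurd hkl (by simp)
          · by_cases hl : l.1 ≠ u
            · rw [dif_neg hk, dif_pos hl] at hkl
              exact absurd hkl (by simp)
            · push Not at hk hl
              exact Subtype.ext (hk.trans hl.symm)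
        rwa [Fintype.card_option] at h8
      omega
    · rw [Fintype.card_sum, Fintype.card_unit]
      omega
  · push Not at hlin
    obtain ⟨F, hF, hIF⟩ := S.mainNL' h2 (by
      intro P hP u
      have h1 := hlin (weightedHomogeneousComponent wgt (wgt u) P) (wgt u) u
        (weightedHomogeneousComponent_isWeightedHomogeneous _ _) (S.comp_mem hP _)
      rw [lin_eq_coeff, coeff_weightedHomogeneousComponent, Finsupp.weight_single, one_smul,
        if_pos rfl] at h1
      rw [lin_eq_coeff, h1])
    have hc : Fintype.card (E ⊕ Fin ρ) = r := by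
      rw [Fintype.card_sum, Fintype.card_fin]
      exact hr
    set e : Fin r ≃ E ⊕ Fin ρ := (Fintype.equivFinOfCardEq hc).symm with he
    refine ⟨F ∘ e, fun i => hF _, ?_⟩
    rw [e.surjective.range_comp F]
    exact hIF

end Pool.Agent.X269.HG
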