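import Pool.Agent.X269.CT.Lin

/-!
Components of highest degree with respect to a weight.
-/

set_option autoImplicit false

namespace Pool.Agent.X269.HG

open MvPolynomial

variable {K : Type} [Field K] {σ : Type}

/-- the substitution `x_i ↦ x_i τ ^ ω_i` -/
noncomputable def Phi (ω : σ → ℕ) : MvPolynomial σ K →ₐ[K] Polynomial (MvPolynomial σ K) :=
  aeval fun i => Polynomial.C (X i) * Polynomial.X ^ ω i

theorem Phi_X (ω : σ → ℕ) (i : σ) :
    Phi ω (X i : MvPolynomial σ K) = Polynomial.C (X i) * Polynomial.X ^ ω i := by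
  rw [Phi, aeval_X]

theorem Phi_monomial (ω : σ → ℕ) (u : σ →₀ ℕ) (c : K) : Phi ω (monomial u c) =
    Polynomial.C (monomial u c) * Polynomial.X ^ (Finsupp.weight ω u) := by
  classical
  rw [Phi, aeval_monomial]
  have h1 : (u.prod fun i k => (Polynomial.C (X i : MvPolynomial σ K) * Polynomial.X ^ ω i) ^ k) =
      Polynomial.C (u.prod fun i k => (X i : MvPolynomial σ K) ^ k) *
        Polynomial.X ^ (Finsupp.weight ω u) := by
    rw [Finsupp.weight_apply]
    unfold Finsupp.prod Finsupp.sum
    rw [map_prod, ← Finset.prod_pow_eq_pow_sum, ← Finset.prod_mul_distrib]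
    refine Finset.prod_congr rfl fun i _ => ?_
    simp only [mul_pow, map_pow, ← pow_mul, smul_eq_mul]
    rw [mul_comm (ω i)]
  rw [h1, monomial_eq, map_mul, ← mul_assoc]
  rfl

theorem Phi_coeff (ω : σ → ℕ) (G : MvPolynomial σ K) (k : ℕ) :
    (Phi ω G).coeff k = weightedHomogeneousComponent ω k G := by
  classical
  induction G using MvPolynomial.induction_on' with
  | monomial u c =>
    rw [Phi_monomial, Polynomial.coeff_C_mul_X_pow]
    have h1 : IsWeightedHomogeneous ω (monomial u c) (Finsupp.weight ω u) :=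
      isWeightedHomogeneous_monomial _ _ _ rfl
    rw [weightedHomogeneousComponent_of_mem h1]
  | add p q hp hq => rw [map_add, Polynomial.coeff_add, hp, hq, map_add]

theorem coeff_comp (ω : σ → ℕ) (G : MvPolynomial σ K) (k : ℕ) (u : σ →₀ ℕ) :
    coeff u (weightedHomogeneousComponent ω k G) =
      if Finsupp.weight ω u = k then coeff u G else 0 := by
  classical
  rw [coeff_weightedHomogeneousComponent]

/-- the derivative with respect to a variable of weight `0` -/
theorem comp_pderiv (ω : σ → ℕ) {l : σ} (hl : ω l = 0) (G : MvPolynomial σ K) (k : ℕ) :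
    weightedHomogeneousComponent ω k (pderiv l G) =
      pderiv l (weightedHomogeneousComponent ω k G) := by
  classical
  apply MvPolynomial.ext
  intro u
  rw [coeff_comp, coeff_pderiv, coeff_pderiv, coeff_comp]
  have h1 : Finsupp.weight ω (u + Finsupp.single l 1) = Finsupp.weight ω u := by
    rw [map_add, Finsupp.weight_single, hl]
    simp
  rw [h1]
  split_ifs
  · rfl
  · rw [zero_mul]

/-- `T` is the component of degree `n` of `G`, and the components of higher degree vanish -/
def Top (ω : σ → ℕ) (n : ℕ) (G T : MvPolynomial σ K) : Prop :=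
  (Phi ω G).natDegree ≤ n ∧ (Phi ω G).coeff n = T

variable {ω : σ → ℕ}

theorem Top.mul {n m : ℕ} {G T G' T' : MvPolynomial σ K} (h : Top ω n G T) (h' : Top ω m G' T') :
    Top ω (n + m) (G * G') (T * T') := by
  refine ⟨?_, ?_⟩
  · rw [map_mul]
    exact Polynomial.natDegree_mul_le.trans (add_le_add h.1 h'.1)
  · rw [map_mul, Polynomial.coeff_mul_add_eq_of_natDegree_le h.1 h'.1, h.2, h'.2]

theorem Top.add {n : ℕ} {G T G' T' : MvPolynomial σ K} (h : Top ω n G T) (h' : Top ω n G' T') :
    Top ω n (G + G') (T + T') := by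
  refine ⟨?_, ?_⟩
  · rw [map_add]
    exact (Polynomial.natDegree_add_le _ _).trans (max_le h.1 h'.1)
  · rw [map_add, Polynomial.coeff_add, h.2, h'.2]

theorem Top.neg {n : ℕ} {G T : MvPolynomial σ K} (h : Top ω n G T) : Top ω n (-G) (-T) := by
  refine ⟨?_, ?_⟩
  · rw [map_neg, Polynomial.natDegree_neg]
    exact h.1
  · rw [map_neg, Polynomial.coeff_neg, h.2]

theorem Top.sub {n : ℕ} {G T G' T' : MvPolynomial σ K} (h : Top ω n G T) (h' : Top ω n G' T') :
    Top ω n (G - G') (T - T') := by
  rw [sub_eq_add_neg, sub_eq_add_neg]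
  exact h.add h'.neg

theorem Top.zero (n : ℕ) : Top ω n (0 : MvPolynomial σ K) 0 := by
  refine ⟨?_, ?_⟩
  · rw [map_zero, Polynomial.natDegree_zero]
    exact Nat.zero_le _
  · rw [map_zero, Polynomial.coeff_zero]

theorem Top.one : Top ω 0 (1 : MvPolynomial σ K) 1 := by
  refine ⟨?_, ?_⟩
  · rw [map_one, Polynomial.natDegree_one]
  · rw [map_one, Polynomial.coeff_one_zero]

theorem Top.C (c : K) : Top ω 0 (C c : MvPolynomial σ K) (C c) := by
  have h : Phi ω (MvPolynomial.C c : MvPolynomial σ K) = Polynomial.C (MvPolynomial.C c) := by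
    rw [Phi, algHom_C]
    rfl
  refine ⟨?_, ?_⟩
  · rw [h, Polynomial.natDegree_C]
  · rw [h, Polynomial.coeff_C_zero]

theorem Top.X (i : σ) : Top ω (ω i) (X i : MvPolynomial σ K) (X i) := by
  refine ⟨?_, ?_⟩
  · rw [Phi_X]
    exact Polynomial.natDegree_C_mul_X_pow_le _ _
  · rw [Phi_X, Polynomial.coeff_C_mul_X_pow, if_pos rfl]

theorem Top.sum {ι : Type*} (s : Finset ι) {n : ℕ} {G T : ι → MvPolynomial σ K}
    (h : ∀ i ∈ s, Top ω n (G i) (T i)) : Top ω n (∑ i ∈ s, G i) (∑ i ∈ s, T i) := by
  classical
  induction s using Finset.induction_on with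
  | empty =>
    rw [Finset.sum_empty, Finset.sum_empty]
    exact Top.zero n
  | insert a s ha ih =>
    rw [Finset.sum_insert ha, Finset.sum_insert ha]
    exact (h a (Finset.mem_insert_self _ _)).add
      (ih fun i hi => h i (Finset.mem_insert_of_mem hi))

theorem Top.prod {ι : Type*} (s : Finset ι) {n : ι → ℕ} {G T : ι → MvPolynomial σ K}
    (h : ∀ i ∈ s, Top ω (n i) (G i) (T i)) :
    Top ω (∑ i ∈ s, n i) (∏ i ∈ s, G i) (∏ i ∈ s, T i) := by
  classical
  induction s using Finset.induction_on with
  | empty =>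
    rw [Finset.prod_empty, Finset.prod_empty, Finset.sum_empty]
    exact Top.one
  | insert a s ha ih =>
    rw [Finset.prod_insert ha, Finset.prod_insert ha, Finset.sum_insert ha]
    exact (h a (Finset.mem_insert_self _ _)).mul
      (ih fun i hi => h i (Finset.mem_insert_of_mem hi))

theorem Top.pow {n : ℕ} {G T : MvPolynomial σ K} (h : Top ω n G T) (k : ℕ) :
    Top ω (n * k) (G ^ k) (T ^ k) := by
  induction k with
  | zero =>
    rw [mul_zero, pow_zero, pow_zero]
    exact Top.one
  | succ k ih =>
    rw [pow_succ, pow_succ, Nat.mul_succ]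
    exact ih.mul h

/-- determinants whose columns have given degrees -/
theorem Top.det {ι : Type*} [Fintype ι] [DecidableEq ι] {n : ι → ℕ}
    {G T : Matrix ι ι (MvPolynomial σ K)} (h : ∀ i j, Top ω (n j) (G i j) (T i j)) :
    Top ω (∑ j, n j) G.det T.det := by
  rw [Matrix.det_apply', Matrix.det_apply']
  refine Top.sum _ fun p _ => ?_
  have h1 : Top ω 0 (((Equiv.Perm.sign p : ℤ) : MvPolynomial σ K))
      (((Equiv.Perm.sign p : ℤ) : MvPolynomial σ K)) := by
    have : (((Equiv.Perm.sign p : ℤ) : MvPolynomial σ K)) =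
        MvPolynomial.C (((Equiv.Perm.sign p : ℤ) : K)) := by
      rw [map_intCast]
    rw [this]
    exact Top.C _
  have h2 := h1.mul (Top.prod Finset.univ (n := n) (G := fun j => G (p j) j)
    (T := fun j => T (p j) j) fun j _ => h (p j) j)
  rwa [zero_add] at h2

theorem Top.pderiv {n : ℕ} {G T : MvPolynomial σ K} (h : Top ω n G T) {l : σ} (hl : ω l = 0) :
    Top ω n (MvPolynomial.pderiv l G) (MvPolynomial.pderiv l T) := by
  refine ⟨?_, ?_⟩
  · rw [Polynomial.natDegree_le_iff_coeff_eq_zero]
    intro k hk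
    rw [Phi_coeff, comp_pderiv ω hl, ← Phi_coeff,
      Polynomial.natDegree_le_iff_coeff_eq_zero.1 h.1 k hk, map_zero]
  · rw [Phi_coeff, comp_pderiv ω hl, ← Phi_coeff, h.2]

/-- the component of degree `n` of a polynomial -/
theorem Top.comp (n : ℕ) (G : MvPolynomial σ K) :
    Top ω n (weightedHomogeneousComponent ω n G) (weightedHomogeneousComponent ω n G) := by
  classical
  have h1 : Phi ω (weightedHomogeneousComponent ω n G) =
      Polynomial.C (weightedHomogeneousComponent ω n G) * Polynomial.X ^ n := by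
    ext1 k
    rw [Phi_coeff, Polynomial.coeff_C_mul_X_pow,
      weightedHomogeneousComponent_of_mem (weightedHomogeneousComponent_isWeightedHomogeneous n G)]
  refine ⟨?_, ?_⟩
  · rw [h1]
    exact Polynomial.natDegree_C_mul_X_pow_le _ _
  · rw [h1, Polynomial.coeff_C_mul_X_pow, if_pos rfl]

/-- every polynomial has a component of highest degree -/
theorem Top.exists (G : MvPolynomial σ K) :
    ∃ n, Top ω n G (weightedHomogeneousComponent ω n G) :=
  ⟨(Phi ω G).natDegree, le_rfl, Phi_coeff _ _ _⟩

/-- lowering the degree -/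
theorem Top.lower {n : ℕ} {G : MvPolynomial σ K} (h : Top ω (n + 1) G 0) :
    Top ω n G (weightedHomogeneousComponent ω n G) := by
  refine ⟨?_, Phi_coeff _ _ _⟩
  rw [Polynomial.natDegree_le_iff_coeff_eq_zero]
  intro k hk
  by_cases hk1 : k = n + 1
  · rw [hk1, h.2]
  · exact Polynomial.natDegree_le_iff_coeff_eq_zero.1 h.1 k (by omega)

theorem Top.comp_eq {n : ℕ} {G T : MvPolynomial σ K} (h : Top ω n G T) :
    weightedHomogeneousComponent ω n G = T := by
  rw [← Phi_coeff, h.2]

theorem Top.idem {n : ℕ} {G T : MvPolynomial σ K} (h : Top ω n G T) : Top ω n T T := by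
  rw [← h.comp_eq]
  exact Top.comp n G

/-- a minor which does not vanish -/
theorem exists_det_ne_zero {F J C : Type*} [Field F] [Fintype J] [DecidableEq J]
    (M : J → C → F) (h : ∀ p : J → F, (∀ c, ∑ j, p j * M j c = 0) → p = 0) :
    ∃ c : J → C, Matrix.det (Matrix.of fun i j => M j (c i)) ≠ 0 := by
  classical
  let v : C → (J → F) := fun c j => M j c
  have hspan : Submodule.span F (Set.range v) = ⊤ := by
    by_contra hne
    obtain ⟨f, hf0, hf⟩ := Submodule.exists_le_ker_of_lt_top (Submodule.span F (Set.range v))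
      (lt_top_iff_ne_top.mpr hne)
    apply hf0
    have hp : (fun j => f (Pi.single j 1)) = (0 : J → F) := by
      apply h
      intro c
      have h1 : f (v c) = 0 := hf (Submodule.subset_span ⟨c, rfl⟩)
      have h2 : v c = ∑ j, v c j • (Pi.single j 1 : J → F) := by
        ext i
        simp [Finset.sum_apply, Pi.single_apply]
      rw [h2, map_sum] at h1
      rw [← h1]
      apply Finset.sum_congr rfl
      intro j _
      rw [map_smul, smul_eq_mul, mul_comm]
    apply LinearMap.pi_ext'
    intro j
    ext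
    simp only [LinearMap.coe_comp, Function.comp_apply, LinearMap.zero_apply]
    exact congrFun hp j
  obtain ⟨b, hbsub, hbspan, hbli⟩ := exists_linearIndependent F (Set.range v)
  rw [hspan] at hbspan
  have hbspan' : ⊤ ≤ Submodule.span F (Set.range ((↑) : b → (J → F))) := by
    rw [Subtype.range_coe, hbspan]
  let B : Module.Basis b F (J → F) := Module.Basis.mk hbli hbspan'
  have hfinb : Finite b := hbli.finite
  have : Fintype b := Fintype.ofFinite b
  have hcard : Fintype.card b = Fintype.card J := by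
    rw [← Module.finrank_eq_card_basis B]; simp
  let e : J ≃ b := (Fintype.equivOfCardEq hcard).symm
  have hch : ∀ i : J, ∃ c, v c = (e i : J → F) := fun i => hbsub (e i).2
  choose c hc using hch
  refine ⟨c, ?_⟩
  have hli : LinearIndependent F (fun i : J => v (c i)) := by
    have h3 : (fun i : J => v (c i)) = (fun x : b => (x : J → F)) ∘ e := by
      funext i
      exact hc i
    rw [h3]
    exact hbli.comp _ e.injective
  have h4 : IsUnit (Matrix.of fun i : J => v (c i)) :=
    Matrix.linearIndependent_rows_iff_isUnit.1 hli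
  exact ((Matrix.isUnit_iff_isUnit_det _).1 h4).ne_zero

end Pool.Agent.X269.HG
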